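import Mathlib

/-! # Amalgamated products and profinitely dense vertex groups -/

namespace Pool.Agent.Q24.SLN

universe u

/-- `Γ` is the free product of its subgroups `A` and `B` with amalgamated subgroup `A ⊓ B`:
it is generated by `A` and `B`, and homomorphisms on `A` and `B` which agree on `A ⊓ B` extend. -/
def IsAmalgam {Γ : Type u} [Group Γ] (A B : Subgroup Γ) : Prop :=
  A ⊔ B = ⊤ ∧ ∀ (H : Type u) [Group H] (f : A →* H) (g : B →* H),
    (∀ (x : Γ) (hA : x ∈ A) (hB : x ∈ B), f ⟨x, hA⟩ = g ⟨x, hB⟩) →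
    ∃ h : Γ →* H, (∀ a : A, h a = f a) ∧ ∀ b : B, h b = g b

section
variable {Q : Type u} [Group Q] [Finite Q]

/-- the functions on `Q` invariant under right translation by `H` -/
def inv (H : Subgroup Q) : Submodule ℚ (Q → ℚ) where
  carrier := {φ | ∀ h ∈ H, ∀ x, φ (x * h) = φ x}
  add_mem' := fun {a b} ha hb h hh x => by
    rw [Pi.add_apply, Pi.add_apply, ha h hh x, hb h hh x]
  zero_mem' := fun h _ x => rfl
  smul_mem' := fun c a ha h hh x => by
    rw [Pi.smul_apply, Pi.smul_apply, ha h hh x]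

omit [Finite Q] in
theorem mem_inv {H : Subgroup Q} {φ : Q → ℚ} : φ ∈ inv H ↔ ∀ h ∈ H, ∀ x, φ (x * h) = φ x :=
  Iff.rfl

theorem finrank_inv (H : Subgroup Q) : Module.finrank ℚ (inv H) = Nat.card (Q ⧸ H) := by
  classical
  have := Fintype.ofFinite (Q ⧸ H)
  let e : inv H ≃ₗ[ℚ] ((Q ⧸ H) → ℚ) :=
    { toFun := fun φ x => Quotient.liftOn' x φ.1 (fun a b hab => by
        have h1 : a⁻¹ * b ∈ H := QuotientGroup.leftRel_apply.1 hab
        have h2 := φ.2 _ h1 a
        rw [mul_inv_cancel_left] at h2
        exact h2.symm)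
      map_add' := fun φ ψ => by
        ext x
        induction x using QuotientGroup.induction_on with
        | H x => rfl
      map_smul' := fun c φ => by
        ext x
        induction x using QuotientGroup.induction_on with
        | H x => rfl
      invFun := fun f => ⟨fun x => f (x : Q ⧸ H), fun h hh x => by
        change f ((x * h : Q) : Q ⧸ H) = f (x : Q ⧸ H)
        congr 1
        rw [QuotientGroup.eq]
        simpa using hh⟩
      left_inv := fun φ => by
        apply Subtype.ext
        ext x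
        rfl
      right_inv := fun f => by
        ext x
        induction x using QuotientGroup.induction_on with
        | H x => rfl }
  rw [e.finrank_eq, Module.finrank_fintype_fun_eq_card, Nat.card_eq_fintype_card]

/-- a function invariant under `C` which is not a sum of functions invariant under `A`, `B` -/
theorem exists_phi {A B C : Subgroup Q} (hCA : C < A) (hCB : C < B) :
    ∃ φ ∈ inv C, φ ∉ inv A ⊔ inv B := by
  classical
  by_contra hcon
  push Not at hcon
  have := Fintype.ofFinite Q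
  have hle : inv C ≤ inv A ⊔ inv B := hcon
  have h1 := Submodule.finrank_mono hle
  have h2 := Submodule.finrank_sup_add_finrank_inf_eq (inv A) (inv B)
  have h3 : 0 < Module.finrank ℚ (inv A ⊓ inv B : Submodule ℚ (Q → ℚ)) := by
    rw [Module.finrank_pos_iff, Submodule.nontrivial_iff_ne_bot]
    intro h0
    have h4 : (fun _ => 1 : Q → ℚ) ∈ (inv A ⊓ inv B : Submodule ℚ (Q → ℚ)) :=
      ⟨fun h _ x => rfl, fun h _ x => rfl⟩
    rw [h0, Submodule.mem_bot] at h4
    exact one_ne_zero (congrFun h4 1)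
  rw [finrank_inv, finrank_inv] at h2
  rw [finrank_inv] at h1
  have key : ∀ A : Subgroup Q, C < A → 2 * Nat.card (Q ⧸ A) ≤ Nat.card (Q ⧸ C) := by
    intro A hA
    have h5 := Subgroup.relIndex_mul_index hA.le
    have h6 : C.relIndex A ≠ 1 := fun h => hA.not_ge (Subgroup.relIndex_eq_one.1 h)
    have h7 : C.relIndex A ≠ 0 := by
      intro h0
      rw [h0, zero_mul] at h5
      exact C.index_ne_zero_of_finite h5.symm
    have h8 : 2 ≤ C.relIndex A := by omega
    change 2 * A.index ≤ C.index
    rw [← h5]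
    exact Nat.mul_le_mul_right _ h8
  have h5 := key A hCA
  have h6 := key B hCB
  have h7 : Nat.card (Q ⧸ C) ≤
      Module.finrank ℚ ((inv A ⊔ inv B : Submodule ℚ (Q → ℚ))) := h1
  omega

end

/-- **Amalgamated products of groups without virtual homomorphisms to `ℚ`.** -/
theorem amalgam_dense {Γ : Type u} [Group Γ]
    (hF : ∀ N : Subgroup Γ, N.FiniteIndex → ∀ f : N →* Multiplicative ℚ, f = 1)
    {A B : Subgroup Γ} (hAB : IsAmalgam A B) (N : Subgroup Γ) [hN : N.Normal]
    [hfi : N.FiniteIndex] : A ≤ (A ⊓ B) ⊔ N ∨ B ≤ (A ⊓ B) ⊔ N := by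
  classical
  by_contra hcon
  rw [not_or] at hcon
  obtain ⟨hA, hB⟩ := hcon
  let Q := Γ ⧸ N
  have hQ : Finite Q := Subgroup.finite_quotient_of_finiteIndex
  have := Fintype.ofFinite Q
  let π : Γ →* Q := QuotientGroup.mk' N
  have hπ : Function.Surjective π := QuotientGroup.mk'_surjective N
  have hker : π.ker = N := QuotientGroup.ker_mk' N
  let A' := A.map π
  let B' := B.map π
  let C' := (A ⊓ B).map π
  have hle : ∀ X : Subgroup Γ, X.map π = C' → X ≤ (A ⊓ B) ⊔ N := by
    intro X hX
    have h1 := Subgroup.comap_map_eq π (A ⊓ B)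
    rw [hker] at h1
    rw [← h1]
    change X ≤ C'.comap π
    rw [← hX]
    exact Subgroup.le_comap_map _ _
  have hCA : C' < A' := lt_of_le_of_ne (Subgroup.map_mono inf_le_left) fun h => hA (hle A h.symm)
  have hCB : C' < B' := lt_of_le_of_ne (Subgroup.map_mono inf_le_right) fun h => hB (hle B h.symm)
  obtain ⟨φ, hφC, hφ⟩ := exists_phi hCA hCB
  -- the action on functions
  let V := Q → ℚ
  let T : Q → V → V := fun q v x => v (x * q)
  have hT1 : ∀ v, T 1 v = v := fun v => by ext x; simp [T]
  have hTmul : ∀ p q v, T (p * q) v = T p (T q v) := fun p q v => by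
    ext x; simp [T, mul_assoc]
  have hTadd : ∀ q v w, T q (v + w) = T q v + T q w := fun q v w => rfl
  have hTsub : ∀ q v w, T q (v - w) = T q v - T q w := fun q v w => rfl
  let P : Q →* Equiv.Perm V :=
    { toFun := fun q =>
        { toFun := T q
          invFun := T q⁻¹
          left_inv := fun v => by rw [← hTmul, inv_mul_cancel, hT1]
          right_inv := fun v => by rw [← hTmul, mul_inv_cancel, hT1] }
      map_one' := by ext1 v; exact hT1 v
      map_mul' := fun p q => by ext1 v; exact hTmul p q v }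
  have hP : ∀ q v, P q v = T q v := fun q v => rfl
  let t : Equiv.Perm V := Equiv.addRight φ
  have ht : ∀ v, t v = v + φ := fun v => rfl
  have hti : ∀ v, t⁻¹ v = v - φ := fun v => by
    rw [Equiv.Perm.inv_eq_iff_eq, ht, sub_add_cancel]
  let f : A →* Equiv.Perm V × Q := (P.prod (MonoidHom.id Q)).comp (π.comp A.subtype)
  let g : B →* Equiv.Perm V × Q :=
    (((MulAut.conj t).toMonoidHom.comp P).prod (MonoidHom.id Q)).comp (π.comp B.subtype)
  obtain ⟨h, hhA, hhB⟩ := hAB.2 (Equiv.Perm V × Q) f g (by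
    intro x hxA hxB
    apply Prod.ext
    · change P (π x) = t * P (π x) * t⁻¹
      ext1 v
      rw [Equiv.Perm.mul_apply, Equiv.Perm.mul_apply, hti, ht, hP, hP, hTsub]
      have h1 : T (π x) φ = φ := by
        ext y
        exact hφC (π x) (Subgroup.mem_map_of_mem π ⟨hxA, hxB⟩) y
      rw [h1, sub_add_cancel]
    · rfl)
  -- the derivation
  let d : Γ → V := fun γ => (h γ).1 0
  have haff : ∀ γ v, (h γ).1 v = T (π γ) v + d γ := by
    have key : ∀ γ ∈ A ⊔ B, ∀ v, (h γ).1 v = T (π γ) v + (h γ).1 0 := by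
      intro γ hγ
      rw [Subgroup.sup_eq_closure] at hγ
      induction hγ using Subgroup.closure_induction with
      | mem x hx =>
        intro v
        rcases hx with hx | hx
        · have h1 : h x = f ⟨x, hx⟩ := hhA ⟨x, hx⟩
          rw [h1]
          change P (π x) v = T (π x) v + P (π x) 0
          rw [hP, hP]
          have : T (π x) (0 : V) = 0 := rfl
          rw [this, add_zero]
        · have h1 : h x = g ⟨x, hx⟩ := hhB ⟨x, hx⟩
          rw [h1]
          change (t * P (π x) * t⁻¹) v = T (π x) v + (t * P (π x) * t⁻¹) 0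
          rw [Equiv.Perm.mul_apply, Equiv.Perm.mul_apply, Equiv.Perm.mul_apply,
            Equiv.Perm.mul_apply, hti, hti, ht, ht, hP, hP, hTsub, hTsub]
          have : T (π x) (0 : V) = 0 := rfl
          rw [this]
          abel
      | one =>
        intro v
        rw [map_one, map_one, hT1]
        change v = v + 0
        rw [add_zero]
      | mul a b _ _ ha hb =>
        intro v
        rw [map_mul, map_mul, hTmul]
        change (h a).1 ((h b).1 v) = T (π a) (T (π b) v) + (h a).1 ((h b).1 0)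
        rw [ha ((h b).1 v), hb v, hTadd, ha ((h b).1 0)]
        abel
      | inv a _ ha =>
        intro v
        rw [map_inv, map_inv]
        change ((h a).1)⁻¹ v = T (π a)⁻¹ v + ((h a).1)⁻¹ 0
        rw [Equiv.Perm.inv_eq_iff_eq, ha]
        rw [hTadd, ← hTmul, mul_inv_cancel, hT1]
        have h1 := ha (((h a).1)⁻¹ 0)
        have h2 : (h a).1 (((h a).1)⁻¹ 0) = 0 := (h a).1.apply_symm_apply 0
        rw [h2] at h1
        rw [add_assoc, ← h1, add_zero]
    intro γ v
    exact key γ (by rw [hAB.1]; trivial) v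
  have hd : ∀ a b, d (a * b) = T (π a) (d b) + d a := by
    intro a b
    change (h (a * b)).1 0 = _
    rw [map_mul]
    change (h a).1 ((h b).1 0) = _
    rw [haff]
  have hdA : ∀ a ∈ A, d a = 0 := by
    intro a ha
    have h1 : h a = f ⟨a, ha⟩ := hhA ⟨a, ha⟩
    change (h a).1 0 = 0
    rw [h1]
    rfl
  have hdB : ∀ b ∈ B, d b = φ - T (π b) φ := by
    intro b hb
    have h1 : h b = g ⟨b, hb⟩ := hhB ⟨b, hb⟩
    change (h b).1 0 = _
    rw [h1]
    change (t * P (π b) * t⁻¹) 0 = _
    rw [Equiv.Perm.mul_apply, Equiv.Perm.mul_apply, hti, ht, hP, hTsub]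
    have : T (π b) (0 : V) = 0 := rfl
    rw [this]
    abel
  -- the derivation vanishes on `N`
  have hdN : ∀ ν ∈ N, d ν = 0 := by
    intro ν hν
    ext x
    have hπN : ∀ ν ∈ N, π ν = 1 := fun ν hν => (QuotientGroup.eq_one_iff ν).2 hν
    let θ : N →* Multiplicative ℚ :=
      { toFun := fun ν => Multiplicative.ofAdd (d ν x)
        map_one' := by
          have h1 := hd 1 1
          rw [mul_one, map_one, hT1] at h1
          have h2 : d 1 = 0 := by
            have h3 : d 1 + 0 = d 1 + d 1 := by rw [add_zero]; exact h1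
            exact (add_left_cancel h3).symm
          change Multiplicative.ofAdd (d 1 x) = 1
          rw [h2]; rfl
        map_mul' := fun a b => by
          change Multiplicative.ofAdd (d (a * b) x) = _
          rw [hd, hπN a a.2, hT1, Pi.add_apply, add_comm]
          rfl }
    have h1 := DFunLike.congr_fun (hF N hfi θ) ⟨ν, hν⟩
    exact congrArg Multiplicative.toAdd h1
  have hdπ : ∀ a b : Γ, π a = π b → d a = d b := by
    intro a b hab
    have h1 : a⁻¹ * b ∈ N := QuotientGroup.eq.1 hab
    have h2 := hd a (a⁻¹ * b)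
    rw [mul_inv_cancel_left, hdN _ h1] at h2
    have : T (π a) (0 : V) = 0 := rfl
    rw [this, zero_add] at h2
    exact h2.symm
  -- averaging
  choose r hr using hπ
  let s : V := ∑ q : Q, d (r q)
  let ψ : V := (Fintype.card Q : ℚ)⁻¹ • s
  have hTsum : ∀ q, T q s = ∑ p : Q, T q (d (r p)) := by
    intro q
    ext x
    change (∑ p : Q, d (r p)) (x * q) = _
    rw [Finset.sum_apply, Finset.sum_apply]
  have hs : ∀ γ, s = T (π γ) s + (Fintype.card Q : ℚ) • d γ := by
    intro γ
    have h1 : ∑ q : Q, d (γ * r q) = s := by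
      have h2 : ∀ q : Q, d (γ * r q) = d (r (π γ * q)) := fun q => hdπ _ _ (by
        rw [map_mul, hr, hr])
      simp only [h2]
      exact Fintype.sum_bijective (fun q => π γ * q) (Group.mulLeft_bijective _) _ _ fun _ => rfl
    calc s = ∑ q : Q, d (γ * r q) := h1.symm
      _ = ∑ q : Q, (T (π γ) (d (r q)) + d γ) := Finset.sum_congr rfl fun q _ => hd _ _
      _ = T (π γ) s + (Fintype.card Q : ℚ) • d γ := by
        rw [Finset.sum_add_distrib, hTsum, Finset.sum_const, Finset.card_univ]
        rw [Nat.cast_smul_eq_nsmul]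
  have hcard : (Fintype.card Q : ℚ) ≠ 0 := by
    exact_mod_cast Fintype.card_ne_zero
  have hψ : ∀ γ, d γ = ψ - T (π γ) ψ := by
    intro γ
    have h1 := hs γ
    have h2 : T (π γ) ψ = (Fintype.card Q : ℚ)⁻¹ • T (π γ) s := rfl
    rw [h2, ← smul_sub]
    have h3 : s - T (π γ) s = (Fintype.card Q : ℚ) • d γ := by
      rw [sub_eq_iff_eq_add, add_comm]; exact h1
    rw [h3, smul_smul, inv_mul_cancel₀ hcard, one_smul]
  apply hφ
  rw [Submodule.mem_sup]
  refine ⟨ψ, ?_, φ - ψ, ?_, by abel⟩
  · rw [mem_inv]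
    rintro q ⟨a, ha, rfl⟩ x
    have h1 := hψ a
    rw [hdA a ha] at h1
    have h2 : T (π a) ψ = ψ := (sub_eq_zero.1 h1.symm).symm
    exact congrFun h2 x
  · rw [mem_inv]
    rintro q ⟨b, hb, rfl⟩ x
    have h1 := hψ b
    rw [hdB b hb] at h1
    have h2 : T (π b) (φ - ψ) = φ - ψ := by
      rw [hTsub]
      have h3 : φ - ψ = T (π b) φ - T (π b) ψ := by
        rw [sub_eq_sub_iff_sub_eq_sub] at h1
        exact h1
      exact h3.symm
    exact congrFun h2 x

/-- one alternative for all finite quotients -/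
theorem amalgam_main {Γ : Type u} [Group Γ]
    (hF : ∀ N : Subgroup Γ, N.FiniteIndex → ∀ x : Abelianization N, IsOfFinOrder x)
    {A B : Subgroup Γ} (hAB : IsAmalgam A B) :
    (∀ N : Subgroup Γ, N.Normal → N.FiniteIndex → A ≤ (A ⊓ B) ⊔ N ∧ B ⊔ N = ⊤) ∨
    (∀ N : Subgroup Γ, N.Normal → N.FiniteIndex → B ≤ (A ⊓ B) ⊔ N ∧ A ⊔ N = ⊤) := by
  have hF' : ∀ N : Subgroup Γ, N.FiniteIndex → ∀ f : N →* Multiplicative ℚ, f = 1 := by
    intro N hN f
    ext1 x
    have h1 := hF N hN (Abelianization.of x)
    have h2 : IsOfFinOrder (Abelianization.lift f (Abelianization.of x)) :=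
      (Abelianization.lift f).isOfFinOrder h1
    rw [Abelianization.lift_apply_of] at h2
    rw [isOfFinOrder_iff_pow_eq_one] at h2
    obtain ⟨k, hk, h3⟩ := h2
    have h4 : (k : ℚ) * Multiplicative.toAdd (f x) = 0 := by
      have := congrArg Multiplicative.toAdd h3
      rw [toAdd_pow, nsmul_eq_mul] at this
      exact this
    have h5 : Multiplicative.toAdd (f x) = 0 := by
      rcases mul_eq_zero.1 h4 with h | h
      · exfalso
        have : k = 0 := by exact_mod_cast h
        omega
      · exact h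
    exact h5
  have htop : ∀ N : Subgroup Γ, A ≤ (A ⊓ B) ⊔ N → B ⊔ N = ⊤ := by
    intro N h
    rw [eq_top_iff, ← hAB.1]
    refine sup_le (h.trans ?_) le_sup_left
    exact sup_le_sup_right inf_le_right N
  have htop' : ∀ N : Subgroup Γ, B ≤ (A ⊓ B) ⊔ N → A ⊔ N = ⊤ := by
    intro N h
    rw [eq_top_iff, ← hAB.1]
    refine sup_le le_sup_left (h.trans ?_)
    exact sup_le_sup_right inf_le_left N
  by_contra hcon
  rw [not_or] at hcon
  obtain ⟨h1, h2⟩ := hcon
  push Not at h1 h2
  obtain ⟨N₁, hn1, hf1, h1⟩ := h1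
  obtain ⟨N₂, hn2, hf2, h2⟩ := h2
  have h1' : ¬ A ≤ (A ⊓ B) ⊔ N₁ := fun h => h1 h (htop _ h)
  have h2' : ¬ B ≤ (A ⊓ B) ⊔ N₂ := fun h => h2 h (htop' _ h)
  rcases amalgam_dense hF' hAB (N₁ ⊓ N₂) with h | h
  · exact h1' (h.trans (sup_le_sup_left inf_le_left _))
  · exact h2' (h.trans (sup_le_sup_left inf_le_right _))

end Pool.Agent.Q24.SLN
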