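import Mathlib

/-! # `SL(n, ℤ)` is generated by transvections -/

namespace Pool.Agent.Q24.SLN

open Matrix

section
variable {n : ℕ}

theorem smul_eq (g : SpecialLinearGroup (Fin n) ℤ) (v : Fin n → ℤ) : g • v = g.1 *ᵥ v := rfl

theorem tr_apply {i j : Fin n} (hij : i ≠ j) (b : ℤ) (v : Fin n → ℤ) (l : Fin n) :
    ((SpecialLinearGroup.transvection hij b : SpecialLinearGroup (Fin n) ℤ) • v) l =
      v l + if l = i then b * v j else 0 := by
  rw [smul_eq, SpecialLinearGroup.transvection_coe, add_mulVec, one_mulVec,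
    Pi.add_apply]
  congr 1
  by_cases h : l = i
  · subst h
    simp [mulVec, dotProduct, Matrix.single_apply]
  · rw [if_neg h]
    simp [mulVec, dotProduct, Matrix.single_apply, Ne.symm h]

/-- the subgroup generated by the transvections with indices at least `k` -/
def EE (n k : ℕ) : Subgroup (SpecialLinearGroup (Fin n) ℤ) :=
  Subgroup.closure {g | ∃ (i j : Fin n) (hij : i ≠ j) (c : ℤ), k ≤ i ∧ k ≤ j ∧
    g = SpecialLinearGroup.transvection hij c}

theorem tr_mem {k : ℕ} {i j : Fin n} (hij : i ≠ j) (c : ℤ) (hi : k ≤ i) (hj : k ≤ j) :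
    SpecialLinearGroup.transvection hij c ∈ EE n k :=
  Subgroup.subset_closure ⟨i, j, hij, c, hi, hj, rfl⟩

theorem EE_le (k : ℕ) : EE n k ≤ EE n 0 := by
  refine Subgroup.closure_mono ?_
  rintro g ⟨i, j, hij, c, -, -, rfl⟩
  exact ⟨i, j, hij, c, Nat.zero_le _, Nat.zero_le _, rfl⟩

theorem EE_fix {k : ℕ} {g : SpecialLinearGroup (Fin n) ℤ} (hg : g ∈ EE n k) (i : Fin n)
    (hi : (i : ℕ) < k) : g • (Pi.single i 1 : Fin n → ℤ) = Pi.single i 1 := by
  unfold EE at hg
  induction hg using Subgroup.closure_induction with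
  | mem g hg =>
    obtain ⟨a, b, hab, c, ha, hb, rfl⟩ := hg
    ext l
    rw [tr_apply]
    have : b ≠ i := fun h => by subst h; omega
    simp [this]
  | one => exact one_smul _ _
  | mul a b _ _ ha hb => rw [mul_smul, hb, ha]
  | inv a _ ha => exact inv_smul_eq_iff.2 ha.symm

/-- Euclid's algorithm on the coordinates at least `k` -/
theorem euclid (k : ℕ) (m : ℕ) : ∀ v : Fin n → ℤ,
    (∑ i ∈ Finset.univ.filter (fun i : Fin n => k ≤ i), (v i).natAbs) ≤ m →
    ∃ g ∈ EE n k, ∀ i j : Fin n, k ≤ i → k ≤ j → i ≠ j → (g • v) i = 0 ∨ (g • v) j = 0 := by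
  classical
  induction m with
  | zero =>
    intro v hv
    refine ⟨1, one_mem _, fun i j hi hj _ => Or.inl ?_⟩
    rw [one_smul]
    have h1 : ∑ i ∈ Finset.univ.filter (fun i : Fin n => k ≤ i), (v i).natAbs = 0 := by omega
    rw [Finset.sum_eq_zero_iff] at h1
    exact Int.natAbs_eq_zero.1 (h1 i (by simp [hi]))
  | succ m ih =>
    intro v hv
    by_cases hcon : ∀ i j : Fin n, k ≤ i → k ≤ j → i ≠ j → v i = 0 ∨ v j = 0
    · exact ⟨1, one_mem _, fun i j hi hj hij => by rw [one_smul]; exact hcon i j hi hj hij⟩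
    push Not at hcon
    obtain ⟨i₀, j₀, hi₀, hj₀, hij₀, hvi₀, hvj₀⟩ := hcon
    obtain ⟨i, j, hi, hj, hij, hvi, hvj, hle⟩ : ∃ i j : Fin n, k ≤ i ∧ k ≤ j ∧ i ≠ j ∧
        v i ≠ 0 ∧ v j ≠ 0 ∧ (v i).natAbs ≤ (v j).natAbs := by
      rcases le_total (v i₀).natAbs (v j₀).natAbs with h | h
      · exact ⟨i₀, j₀, hi₀, hj₀, hij₀, hvi₀, hvj₀, h⟩
      · exact ⟨j₀, i₀, hj₀, hi₀, Ne.symm hij₀, hvj₀, hvi₀, h⟩
    obtain ⟨s, hs⟩ : ∃ s : ℤ, (v j + s * v i).natAbs < (v j).natAbs := by
      rcases lt_or_gt_of_ne hvi with h1 | h1 <;> rcases lt_or_gt_of_ne hvj with h2 | h2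
      · exact ⟨-1, by omega⟩
      · exact ⟨1, by omega⟩
      · exact ⟨1, by omega⟩
      · exact ⟨-1, by omega⟩
    let t := (SpecialLinearGroup.transvection (Ne.symm hij) s : SpecialLinearGroup (Fin n) ℤ)
    have ht : t ∈ EE n k := tr_mem _ _ hj hi
    obtain ⟨g, hg, h⟩ := ih (t • v) (by
      have h1 : ∑ l ∈ Finset.univ.filter (fun l : Fin n => k ≤ l), ((t • v) l).natAbs <
          ∑ l ∈ Finset.univ.filter (fun l : Fin n => k ≤ l), (v l).natAbs := by
        refine Finset.sum_lt_sum (fun l _ => ?_) ⟨j, by simp [hj], ?_⟩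
        · rw [tr_apply]
          by_cases hl : l = j
          · subst hl; rw [if_pos rfl]; exact hs.le
          · rw [if_neg hl, add_zero]
        · rw [tr_apply, if_pos rfl]; exact hs
      omega)
    refine ⟨g * t, mul_mem hg ht, fun a b ha hb hab => ?_⟩
    rw [mul_smul]
    exact h a b ha hb hab

/-- one more column -/
theorem step (g : SpecialLinearGroup (Fin n) ℤ) (k : ℕ) (hk : k < n)
    (hg : ∀ i : Fin n, (i : ℕ) < k → g • (Pi.single i 1 : Fin n → ℤ) = Pi.single i 1) :
    ∃ h ∈ EE n 0, ∀ i : Fin n, (i : ℕ) < k + 1 →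
      (h * g) • (Pi.single i 1 : Fin n → ℤ) = Pi.single i 1 := by
  classical
  let κ : Fin n := ⟨k, hk⟩
  obtain ⟨h1, hh1, hw⟩ := euclid (n := n) k _ (g • (Pi.single κ 1 : Fin n → ℤ)) le_rfl
  set w := h1 • (g • (Pi.single κ 1 : Fin n → ℤ)) with hwdef
  -- the nonzero coordinate
  have hunit : ∃ p : Fin n, k ≤ p ∧ (w p = 1 ∨ w p = -1) ∧ ∀ i : Fin n, k ≤ i → i ≠ p → w i = 0 := by
    have hex : ∃ p : Fin n, k ≤ p ∧ ∀ i : Fin n, k ≤ i → i ≠ p → w i = 0 := by
      by_cases h0 : ∃ p : Fin n, k ≤ p ∧ w p ≠ 0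
      · obtain ⟨p, hp, hwp⟩ := h0
        exact ⟨p, hp, fun i hi hip => (hw i p hi hp hip).resolve_right hwp⟩
      · push Not at h0
        exact ⟨κ, le_refl k, fun i hi _ => h0 i hi⟩
    obtain ⟨p, hp, hz⟩ := hex
    refine ⟨p, hp, ?_, hz⟩
    -- `w = ∑_{i<k} w i e_i + w p e_p`
    have hsum : w = (∑ i ∈ Finset.univ.filter (fun i : Fin n => (i : ℕ) < k),
        w i • (Pi.single i 1 : Fin n → ℤ)) + w p • (Pi.single p 1 : Fin n → ℤ) := by
      ext l
      rw [Pi.add_apply, Finset.sum_apply]
      simp only [Pi.smul_apply, smul_eq_mul, Pi.single_apply, mul_ite, mul_one, mul_zero]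
      by_cases hl : (l : ℕ) < k
      · have hlp : l ≠ p := fun h => by subst h; omega
        rw [if_neg hlp, add_zero, Finset.sum_ite_eq, if_pos (by simp [hl])]
      · rw [Finset.sum_ite_eq, if_neg (by simp; omega), zero_add]
        by_cases hlp : l = p
        · rw [if_pos hlp, hlp]
        · rw [if_neg hlp]
          exact hz l (by omega) hlp
    have hfix : ∀ i : Fin n, (i : ℕ) < k → (h1 * g)⁻¹ • (Pi.single i 1 : Fin n → ℤ) =
        Pi.single i 1 := by
      intro i hi
      rw [inv_smul_eq_iff, mul_smul, hg i hi, EE_fix hh1 i hi]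
    have h2 : (h1 * g)⁻¹ • w = Pi.single κ 1 := by
      rw [hwdef, ← mul_smul, ← mul_smul, show (h1 * g)⁻¹ * h1 * g = 1 by group, one_smul]
    rw [hsum, smul_add, Finset.smul_sum] at h2
    have h3 := congrFun h2 κ
    have hkp : ∑ x ∈ Finset.univ.filter (fun i : Fin n => (i : ℕ) < k),
        ((h1 * g)⁻¹ • (w x • (Pi.single x 1 : Fin n → ℤ))) κ = 0 := by
      refine Finset.sum_eq_zero fun x hx => ?_
      have hx' : (x : ℕ) < k := by simpa using hx
      rw [smul_comm, hfix x hx']
      have : κ ≠ x := fun h => by rw [← h] at hx'; exact lt_irrefl _ hx'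
      simp [this]
    rw [Pi.add_apply, Finset.sum_apply, hkp, zero_add, smul_comm, Pi.smul_apply, Pi.single_eq_same,
      smul_eq_mul] at h3
    rcases Int.eq_one_or_neg_one_of_mul_eq_one h3 with h | h
    · exact Or.inl h
    · exact Or.inr h
  obtain ⟨p, hp, hwp, hz⟩ := hunit
  -- move to the coordinate `k`
  have hmove : ∃ h2 ∈ EE n k, (h2 • w) κ = 1 ∧ ∀ i : Fin n, k ≤ i → i ≠ κ → (h2 • w) i = 0 := by
    by_cases hpk : p = κ
    · subst hpk
      rcases hwp with h | h
      · exact ⟨1, one_mem _, by rw [one_smul]; exact h, fun i hi hne => by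
          rw [one_smul]; exact hz i hi hne⟩
      · by_cases hlast : k + 1 < n
        · let q : Fin n := ⟨k + 1, hlast⟩
          have hqk : q ≠ κ := fun h => by
            have := congrArg Fin.val h
            simp [q, κ] at this
          refine ⟨SpecialLinearGroup.transvection hqk (-1) *
            (SpecialLinearGroup.transvection (Ne.symm hqk) 2 *
            SpecialLinearGroup.transvection hqk (-1)), ?_, ?_, ?_⟩
          · exact mul_mem (tr_mem _ _ (by simp [q]) (le_refl k))
              (mul_mem (tr_mem _ _ (le_refl k) (by simp [q])) (tr_mem _ _ (by simp [q]) (le_refl k)))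
          · simp only [mul_smul, tr_apply, if_neg hqk, if_neg (Ne.symm hqk), if_true, h,
              hz q (by simp [q]) hqk]
            norm_num
          · intro i hi hne
            simp only [mul_smul, tr_apply, if_neg hqk, if_neg (Ne.symm hqk), if_true, h,
              hz q (by simp [q]) hqk, if_neg hne]
            by_cases hiq : i = q
            · subst hiq
              rw [if_pos rfl, hz q (by simp [q]) hqk]
              norm_num
            · rw [if_neg hiq, if_neg hiq, hz i hi hne]
              norm_num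
        · -- the last column
          exfalso
          have hn : n = k + 1 := by omega
          have hdet : (h1 * g : SpecialLinearGroup (Fin n) ℤ).1.det = 1 := (h1 * g).2
          have hcol : ∀ i j : Fin n, (h1 * g).1 i j = ((h1 * g) • (Pi.single j 1 : Fin n → ℤ)) i := by
            intro i j
            rw [smul_eq, mulVec_single_one]
            rfl
          have hfix : ∀ i : Fin n, (i : ℕ) < k → (h1 * g) • (Pi.single i 1 : Fin n → ℤ) =
              Pi.single i 1 := by
            intro i hi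
            rw [mul_smul, hg i hi, EE_fix hh1 i hi]
          have hut : (h1 * g).1.BlockTriangular id := by
            intro i j hij
            have hij' : j < i := hij
            rw [hcol, hfix j (by omega), Pi.single_eq_of_ne (ne_of_gt hij')]
          rw [Matrix.det_of_isUpperTriangular hut] at hdet
          have h5 : ∏ i, (h1 * g).1 i i = -1 := by
            rw [Finset.prod_eq_single κ]
            · rw [hcol, mul_smul]
              exact h
            · intro i _ hi
              have : (i : ℕ) < k := by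
                have h6 : (i : ℕ) ≠ k := fun h7 => hi (Fin.ext h7)
                omega
              rw [hcol, hfix i this, Pi.single_eq_same]
            · simp
          rw [h5] at hdet
          norm_num at hdet
    · refine ⟨SpecialLinearGroup.transvection hpk (-(w p)) *
        SpecialLinearGroup.transvection (Ne.symm hpk) (w p), ?_, ?_, ?_⟩
      · exact mul_mem (tr_mem _ _ hp (le_refl k)) (tr_mem _ _ (le_refl k) hp)
      · simp only [mul_smul, tr_apply, if_neg hpk, if_neg (Ne.symm hpk), if_true,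
          hz κ (le_refl k) (Ne.symm hpk)]
        rcases hwp with h | h <;> rw [h] <;> norm_num
      · intro i hi hne
        simp only [mul_smul, tr_apply, if_neg hpk, if_neg (Ne.symm hpk), if_true, if_neg hne,
          hz κ (le_refl k) (Ne.symm hpk)]
        by_cases hip : i = p
        · subst hip
          rcases hwp with h | h <;> simp [h]
        · rw [if_neg hip, hz i hi hip]
          norm_num
  obtain ⟨h2, hh2, hκ1, hκ0⟩ := hmove
  -- clear the coordinates below `k`
  have hclear : ∀ T : Finset (Fin n), (∀ i ∈ T, (i : ℕ) < k) → ∃ h3 ∈ EE n 0,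
      (∀ i : Fin n, (i : ℕ) < k → h3 • (Pi.single i 1 : Fin n → ℤ) = Pi.single i 1) ∧
      (∀ i : Fin n, i ∈ T → (h3 • (h2 • w)) i = 0) ∧
      (∀ i : Fin n, i ∉ T → (h3 • (h2 • w)) i = (h2 • w) i) := by
    intro T
    induction T using Finset.induction_on with
    | empty =>
      intro _
      exact ⟨1, one_mem _, fun _ _ => one_smul _ _, by simp, fun i _ => by rw [one_smul]⟩
    | insert a T haT ih =>
      intro hT
      obtain ⟨h3, hm, hfx, hT0, hT1⟩ := ih fun i hi => hT i (Finset.mem_insert_of_mem hi)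
      have hak : (a : ℕ) < k := hT a (Finset.mem_insert_self _ _)
      have hne : a ≠ κ := fun h => by rw [h] at hak; exact lt_irrefl _ hak
      have hκT : κ ∉ T := fun h => lt_irrefl _ (hT κ (Finset.mem_insert_of_mem h))
      refine ⟨SpecialLinearGroup.transvection hne (-((h2 • w) a)) * h3,
        mul_mem (tr_mem _ _ (Nat.zero_le _) (Nat.zero_le _)) hm, ?_, ?_, ?_⟩
      · intro i hi
        rw [mul_smul, hfx i hi]
        ext l
        rw [tr_apply]
        have : κ ≠ i := fun h => by rw [← h] at hi; exact lt_irrefl _ hi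
        simp [this]
      · intro i hi
        rw [mul_smul, tr_apply, hT1 κ hκT, hκ1]
        rcases Finset.mem_insert.1 hi with rfl | hi
        · rw [if_pos rfl, hT1 i haT]; ring
        · have : i ≠ a := fun h => haT (h ▸ hi)
          rw [if_neg this, hT0 i hi, add_zero]
      · intro i hi
        rw [Finset.mem_insert, not_or] at hi
        rw [mul_smul, tr_apply, if_neg hi.1, add_zero, hT1 i hi.2]
  obtain ⟨h3, hm3, hfx3, hT0, hT1⟩ := hclear (Finset.univ.filter fun i : Fin n => (i : ℕ) < k)
    (by simp)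
  refine ⟨h3 * (h2 * h1), mul_mem hm3 (mul_mem (EE_le k hh2) (EE_le k hh1)), fun i hi => ?_⟩
  rw [mul_assoc, mul_assoc, mul_smul, mul_smul, mul_smul]
  by_cases hik : (i : ℕ) < k
  · rw [hg i hik, EE_fix hh1 i hik, EE_fix hh2 i hik, hfx3 i hik]
  · have hiκ : i = κ := Fin.ext (show (i : ℕ) = k by omega)
    subst hiκ
    ext l
    by_cases hl : (l : ℕ) < k
    · have h4 := hT0 l (by simp [hl])
      have h5 : l ≠ κ := fun h => by rw [h] at hl; exact lt_irrefl _ hl
      rw [Pi.single_eq_of_ne h5]
      exact h4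
    · have h4 := hT1 l (by simp; omega)
      by_cases h5 : l = κ
      · subst h5
        rw [Pi.single_eq_same]
        exact h4.trans hκ1
      · rw [Pi.single_eq_of_ne h5]
        exact h4.trans (hκ0 l (by omega) h5)

theorem gen_top (n : ℕ) : EE n 0 = ⊤ := by
  have key : ∀ k : ℕ, k ≤ n → ∀ g : SpecialLinearGroup (Fin n) ℤ, ∃ h ∈ EE n 0,
      ∀ i : Fin n, (i : ℕ) < k → (h * g) • (Pi.single i 1 : Fin n → ℤ) = Pi.single i 1 := by
    intro k
    induction k with
    | zero => exact fun _ g => ⟨1, one_mem _, fun i hi => absurd hi (Nat.not_lt_zero _)⟩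
    | succ k ih =>
      intro hk g
      obtain ⟨h, hh, h1⟩ := ih (by omega) g
      obtain ⟨h', hh', h2⟩ := step (h * g) k (by omega) h1
      exact ⟨h' * h, mul_mem hh' hh, fun i hi => by rw [mul_assoc]; exact h2 i hi⟩
  rw [eq_top_iff]
  intro g _
  obtain ⟨h, hh, h1⟩ := key n le_rfl g
  have h2 : h * g = 1 := by
    apply Subtype.ext
    ext i j
    have h3 := congrFun (h1 j j.2) i
    rw [smul_eq, mulVec_single_one] at h3
    have h4 : (h * g).1 i j = (Pi.single j 1 : Fin n → ℤ) i := h3
    have h5 : (1 : SpecialLinearGroup (Fin n) ℤ).1 i j = if i = j then 1 else 0 :=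
      Matrix.one_apply
    rw [h4, h5, Pi.single_apply]
  have h3 : g = h⁻¹ := by rw [← mul_eq_one_iff_inv_eq.1 h2]
  rw [h3]
  exact inv_mem hh

end

end Pool.Agent.Q24.SLN
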