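import Pool.Agent.Q24.SLN.Ring

/-! # Actions on modules with few generators -/

namespace Pool.Agent.Q24.SLN

open Matrix

/-- actions on finite dimensional vector spaces over finite fields -/
theorem act_finite {n : ℕ} (hn : 3 ≤ n) {Γ : Type} [Group Γ] (hΓ : QuotientsOfSL n Γ)
    {F : Type*} [Field F] [Finite F] {V : Type*} [AddCommGroup V] [Module F V]
    [FiniteDimensional F V] (hm : Module.finrank F V < n) (ρ : Γ →* Module.End F V) : ρ = 1 := by
  classical
  let b := Module.finBasis F V
  let e := LinearMap.toMatrixAlgEquiv b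
  let f : Γ →* Matrix (Fin (Module.finrank F V)) (Fin (Module.finrank F V)) F :=
    (e.toAlgHom.toRingHom.toMonoidHom).comp ρ
  have h1 := rep_finite hn hΓ hm f.toHomUnits
  ext1 γ
  apply e.injective
  have h2 := congrArg Units.val (DFunLike.congr_fun h1 γ)
  have h3 : e (ρ γ) = 1 := h2
  rw [h3]
  simp

/-- an element of a finitely generated module in all powers of all maximal ideals -/
theorem eq_zero_of_forall' {S : Type*} [CommRing S] [IsNoetherianRing S] {M : Type*}
    [AddCommGroup M] [Module S M] [Module.Finite S M] {x : M}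
    (h : ∀ (I : Ideal S), I.IsMaximal → ∀ k : ℕ, x ∈ (I ^ k • ⊤ : Submodule S M)) : x = 0 := by
  by_contra hx
  have hann : Submodule.annihilator (Submodule.span S {x}) ≠ ⊤ := by
    intro h1
    have h2 : (1 : S) ∈ Submodule.annihilator (Submodule.span S {x}) := by rw [h1]; trivial
    rw [Submodule.mem_annihilator_span_singleton, one_smul] at h2
    exact hx h2
  obtain ⟨I, hI, hle⟩ := Ideal.exists_le_maximal _ hann
  have h1 : x ∈ (⨅ i : ℕ, I ^ i • ⊤ : Submodule S M) := by
    rw [Submodule.mem_iInf]
    exact fun i => h I hI i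
  obtain ⟨r, hr⟩ := (I.mem_iInf_smul_pow_eq_bot_iff x).1 h1
  have h2 : (1 - (r : S)) ∈ Submodule.annihilator (Submodule.span S {x}) := by
    rw [Submodule.mem_annihilator_span_singleton, sub_smul, one_smul, hr, sub_self]
  have h3 : (1 : S) ∈ I := by
    have := I.add_mem (hle h2) r.2
    simpa using this
  exact hI.ne_top ((Ideal.eq_top_iff_one I).2 h3)

/-- finitely generated rings -/
theorem act_ft {n : ℕ} (hn : 3 ≤ n) {Γ : Type} [Group Γ] (hfg : Group.FG Γ)
    (hΓ : QuotientsOfSL n Γ) {S : Type*} [CommRing S] [Algebra.FiniteType ℤ S] {M : Type*}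
    [AddCommGroup M] [Module S M] {m : ℕ} (hm : m < n) (s : Fin m → M)
    (hs : Submodule.span S (Set.range s) = ⊤) (ρ : Γ →* Module.End S M) : ρ = 1 := by
  classical
  have hnoe : IsNoetherianRing S := Algebra.FiniteType.isNoetherianRing ℤ S
  have hfin : Module.Finite S M := ⟨⟨Finset.univ.image s, by simpa using hs⟩⟩
  have key : ∀ (I : Ideal S), I.IsMaximal → ∀ k : ℕ, ∀ (γ : Γ) (x : M),
      ρ γ x - x ∈ (I ^ (k + 1) • ⊤ : Submodule S M) := by
    intro I hI k
    induction k with
    | zero =>
      intro γ x
      rw [zero_add, pow_one]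
      let F : Field (S ⧸ I) := Ideal.Quotient.field I
      have hfinF : Finite (S ⧸ I) := residue_finite S I
      let V := M ⧸ (I • ⊤ : Submodule S M)
      let _ : Module (S ⧸ I) V := inferInstance
      have htow : IsScalarTower S (S ⧸ I) V := inferInstance
      have hspan : Submodule.span (S ⧸ I) (Set.range fun i => (I • ⊤ : Submodule S M).mkQ (s i)) =
          ⊤ := by
        rw [eq_top_iff]
        intro v _
        obtain ⟨w, rfl⟩ := (I • ⊤ : Submodule S M).mkQ_surjective v
        have hw : w ∈ Submodule.span S (Set.range s) := by rw [hs]; trivial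
        induction hw using Submodule.span_induction with
        | mem w hw =>
          obtain ⟨i, rfl⟩ := hw
          exact Submodule.subset_span ⟨i, rfl⟩
        | zero => rw [map_zero]; exact zero_mem _
        | add a b _ _ ha hb => rw [map_add]; exact add_mem (ha trivial) (hb trivial)
        | smul c a _ ha =>
          replace ha := ha trivial
          rw [map_smul]
          have : c • (I • ⊤ : Submodule S M).mkQ a =
              (Ideal.Quotient.mk I c) • (I • ⊤ : Submodule S M).mkQ a := by
            rfl
          rw [this]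
          exact Submodule.smul_mem _ _ ha
      have hfd : FiniteDimensional (S ⧸ I) V :=
        ⟨⟨Finset.univ.image fun i => (I • ⊤ : Submodule S M).mkQ (s i), by
          simpa using hspan⟩⟩
      have hle : Module.finrank (S ⧸ I) V ≤ m := by
        have h1 := finrank_range_le_card (R := S ⧸ I) (M := V)
          (fun i => (I • ⊤ : Submodule S M).mkQ (s i))
        rw [Set.finrank, hspan, finrank_top, Fintype.card_fin] at h1
        exact h1
      have hst : ∀ γ : Γ, (I • ⊤ : Submodule S M) ≤ (I • ⊤ : Submodule S M).comap (ρ γ) := by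
        intro γ
        rw [← Submodule.map_le_iff_le_comap, Submodule.map_smul'']
        exact smul_mono_right _ le_top
      let f : Γ →* Module.End (S ⧸ I) V :=
        { toFun := fun γ =>
            { toFun := (I • ⊤ : Submodule S M).mapQ (I • ⊤ : Submodule S M) (ρ γ) (hst γ)
              map_add' := fun a b => map_add _ a b
              map_smul' := fun c a => by
                obtain ⟨c, rfl⟩ := Ideal.Quotient.mk_surjective c
                exact LinearMap.map_smul
                  ((I • ⊤ : Submodule S M).mapQ (I • ⊤ : Submodule S M) (ρ γ) (hst γ)) c a }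
          map_one' := by
            apply LinearMap.ext
            intro v
            obtain ⟨w, rfl⟩ := (I • ⊤ : Submodule S M).mkQ_surjective v
            change (I • ⊤ : Submodule S M).mkQ (ρ 1 w) = (I • ⊤ : Submodule S M).mkQ w
            rw [map_one]; rfl
          map_mul' := fun a b => by
            apply LinearMap.ext
            intro v
            obtain ⟨w, rfl⟩ := (I • ⊤ : Submodule S M).mkQ_surjective v
            change (I • ⊤ : Submodule S M).mkQ (ρ (a * b) w) =
              (I • ⊤ : Submodule S M).mkQ (ρ a (ρ b w))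
            rw [map_mul]; rfl }
      have hf := act_finite hn hΓ (lt_of_le_of_lt hle hm) f
      have h1 := LinearMap.congr_fun (DFunLike.congr_fun hf γ) ((I • ⊤ : Submodule S M).mkQ x)
      have h2 : (I • ⊤ : Submodule S M).mkQ (ρ γ x) = (I • ⊤ : Submodule S M).mkQ x := h1
      rw [← sub_eq_zero, ← map_sub] at h2
      exact (Submodule.Quotient.mk_eq_zero _).1 h2
    | succ k ih =>
      let W : Submodule S M := I ^ (k + 2) • ⊤
      have hsub : ∀ (γ : Γ) (x : M), x ∈ (I ^ (k + 1) • ⊤ : Submodule S M) →
          ρ γ x - x ∈ W := by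
        intro γ x hx
        induction hx using Submodule.smul_induction_on' with
        | smul c hc y hy =>
          rw [map_smul, ← smul_sub]
          have h1 : c • (ρ γ y - y) ∈ (I ^ (k + 1) • (I ^ (k + 1) • ⊤ : Submodule S M) :
              Submodule S M) := Submodule.smul_mem_smul hc (ih γ y)
          rw [← Submodule.mul_smul, ← pow_add] at h1
          exact Submodule.smul_mono_left (Ideal.pow_le_pow_right (by omega)) h1
        | add a _ b _ ha hb =>
          rw [map_add]
          have : ρ γ a + ρ γ b - (a + b) = (ρ γ a - a) + (ρ γ b - b) := by abel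
          rw [this]
          exact add_mem ha hb
      let f : Γ →* Multiplicative (M →+ M ⧸ W) :=
        { toFun := fun γ => Multiplicative.ofAdd
            ((W.mkQ.toAddMonoidHom).comp ((ρ γ - 1 : Module.End S M).toAddMonoidHom))
          map_one' := by
            apply Multiplicative.toAdd.injective
            ext x
            change W.mkQ (ρ 1 x - x) = 0
            rw [map_one, Module.End.one_apply, sub_self, map_zero]
          map_mul' := fun a b => by
            apply Multiplicative.toAdd.injective
            ext x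
            change W.mkQ (ρ (a * b) x - x) = W.mkQ (ρ a x - x) + W.mkQ (ρ b x - x)
            rw [← map_add, ← sub_eq_zero, ← map_sub]
            rw [Submodule.mkQ_apply, Submodule.Quotient.mk_eq_zero]
            have h1 := hsub a (ρ b x - x) (ih b x)
            rw [map_sub] at h1
            rw [map_mul, Module.End.mul_apply]
            have e : ρ a (ρ b x) - x - (ρ a x - x + (ρ b x - x)) =
              ρ a (ρ b x) - ρ a x - (ρ b x - x) := by abel
            rw [e]
            exact h1 }
      have hf : f = 1 := ab_trivial hn hfg hΓ f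
      intro γ x
      have h1 := DFunLike.congr_fun (congrArg Multiplicative.toAdd (DFunLike.congr_fun hf γ)) x
      have h2 : W.mkQ (ρ γ x - x) = 0 := h1
      rwa [Submodule.mkQ_apply, Submodule.Quotient.mk_eq_zero] at h2
  ext1 γ
  apply LinearMap.ext
  intro x
  rw [← sub_eq_zero]
  refine eq_zero_of_forall' (S := S) fun I hI k => ?_
  cases k with
  | zero => simp
  | succ k => exact key I hI k γ x

/-- **Actions on modules with few generators.** -/
theorem act_ring {n : ℕ} (hn : 3 ≤ n) {Γ : Type} [Group Γ] (hfg : Group.FG Γ)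
    (hΓ : QuotientsOfSL n Γ) {R : Type*} [CommRing R] {M : Type*}
    [AddCommGroup M] [Module R M] {m : ℕ} (hm : m < n) (s : Fin m → M)
    (hs : Submodule.span R (Set.range s) = ⊤) (ρ : Γ →* Module.End R M) : ρ = 1 := by
  classical
  obtain ⟨T, hT⟩ := hfg.out
  have hex : ∀ x : M, ∃ c : Fin m → R, ∑ j, c j • s j = x := by
    intro x
    have hx : x ∈ Submodule.span R (Set.range s) := by rw [hs]; trivial
    exact (Submodule.mem_span_range_iff_exists_fun R).1 hx
  choose c hc using hex
  let G : Set R := ⋃ t ∈ T, ((Set.range fun p : Fin m × Fin m => c (ρ t (s p.1)) p.2) ∪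
    (Set.range fun p : Fin m × Fin m => c (ρ t⁻¹ (s p.1)) p.2))
  have hG : G.Finite := Set.Finite.biUnion T.finite_toSet fun t _ =>
    (Set.finite_range _).union (Set.finite_range _)
  let S : Subalgebra ℤ R := Algebra.adjoin ℤ G
  have hft : Algebra.FiniteType ℤ S := by
    rw [← Subalgebra.fg_iff_finiteType]
    exact Subalgebra.fg_def.2 ⟨G, hG, rfl⟩
  let M₀ : Submodule S M := Submodule.span S (Set.range s)
  have hlin : ∀ (γ : Γ) (a : S) (x : M), ρ γ (a • x) = a • ρ γ x := fun γ a x =>
    (ρ γ).map_smul (a : R) x
  have hst0 : ∀ γ : Γ, (∀ i, ρ γ (s i) ∈ M₀) → ∀ x ∈ M₀, ρ γ x ∈ M₀ := by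
    intro γ h x hx
    induction hx using Submodule.span_induction with
    | mem x hx =>
      obtain ⟨i, rfl⟩ := hx
      exact h i
    | zero => rw [map_zero]; exact zero_mem _
    | add a b _ _ ha hb => rw [map_add]; exact add_mem ha hb
    | smul a x _ hx => rw [hlin]; exact M₀.smul_mem a hx
  have hst1 : ∀ γ : Γ, (∀ x ∈ M₀, ρ γ x ∈ M₀) ∧ (∀ x ∈ M₀, ρ γ⁻¹ x ∈ M₀) := by
    intro γ
    have hγ : γ ∈ Subgroup.closure (T : Set Γ) := by rw [hT]; trivial
    induction hγ using Subgroup.closure_induction with
    | mem t ht =>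
      constructor
      · refine hst0 t fun i => ?_
        rw [← hc (ρ t (s i))]
        refine M₀.sum_mem fun j _ => ?_
        exact M₀.smul_mem (⟨c (ρ t (s i)) j, Algebra.subset_adjoin
          (Set.mem_biUnion ht (Or.inl ⟨(i, j), rfl⟩))⟩ : S) (Submodule.subset_span ⟨j, rfl⟩)
      · refine hst0 t⁻¹ fun i => ?_
        rw [← hc (ρ t⁻¹ (s i))]
        refine M₀.sum_mem fun j _ => ?_
        exact M₀.smul_mem (⟨c (ρ t⁻¹ (s i)) j, Algebra.subset_adjoin
          (Set.mem_biUnion ht (Or.inr ⟨(i, j), rfl⟩))⟩ : S) (Submodule.subset_span ⟨j, rfl⟩)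
    | one => rw [inv_one, map_one]; exact ⟨fun x hx => hx, fun x hx => hx⟩
    | mul a b _ _ ha hb =>
      rw [_root_.mul_inv_rev, map_mul, map_mul]
      exact ⟨fun x hx => ha.1 _ (hb.1 x hx), fun x hx => hb.2 _ (ha.2 x hx)⟩
    | inv a _ ha => rw [inv_inv]; exact ⟨ha.2, ha.1⟩
  let ρ₀ : Γ →* Module.End S M₀ :=
    { toFun := fun γ =>
        { toFun := fun x => ⟨ρ γ x, (hst1 γ).1 x x.2⟩
          map_add' := fun x y => Subtype.ext (map_add (ρ γ) (x : M) y)
          map_smul' := fun a x => Subtype.ext (hlin γ a x) }
      map_one' := by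
        apply LinearMap.ext
        intro x
        apply Subtype.ext
        change ρ 1 (x : M) = x
        rw [map_one]; rfl
      map_mul' := fun a b => by
        apply LinearMap.ext
        intro x
        apply Subtype.ext
        change ρ (a * b) (x : M) = ρ a (ρ b x)
        rw [map_mul]; rfl }
  have hs₀ : Submodule.span S (Set.range fun i => (⟨s i, Submodule.subset_span ⟨i, rfl⟩⟩ : M₀)) =
      ⊤ := by
    rw [eq_top_iff]
    rintro ⟨x, hx⟩ -
    obtain ⟨a, ha⟩ := (Submodule.mem_span_range_iff_exists_fun S).1 hx
    rw [Submodule.mem_span_range_iff_exists_fun]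
    refine ⟨a, Subtype.ext ?_⟩
    rw [AddSubmonoidClass.coe_finsetSum]
    exact ha
  have h1 := act_ft hn hfg hΓ hm _ hs₀ ρ₀
  ext1 γ
  apply LinearMap.ext
  intro x
  have h2 : ∀ i, ρ γ (s i) = s i := by
    intro i
    have := LinearMap.congr_fun (DFunLike.congr_fun h1 γ)
      (⟨s i, Submodule.subset_span ⟨i, rfl⟩⟩ : M₀)
    exact congrArg Subtype.val this
  rw [← hc x, map_sum]
  simp only [map_smul, h2]
  rfl

end Pool.Agent.Q24.SLN
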