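import Pool.Agent.Q24.SLN.Mod

/-! # Actions on residually nilpotent groups -/

namespace Pool.Agent.Q24.SLN

open scoped commutatorElement

/-- the action on the abelianization -/
theorem act_abelianization {n : ℕ} (hn : 3 ≤ n) {Γ : Type} [Group Γ] (hfg : Group.FG Γ)
    (hΓ : QuotientsOfSL n Γ) {N : Type*} [Group N] {m : ℕ} (hm : m < n) (s : Fin m → N)
    (hs : Subgroup.closure (Set.range s) ⊔ commutator N = ⊤) (ρ : Γ →* MulAut N) (γ : Γ) (x : N) :
    ρ γ x * x⁻¹ ∈ commutator N := by
  classical
  let A := Additive (Abelianization N)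
  have hsur : ∀ a : A, ∃ y : N, Additive.ofMul (Abelianization.of y) = a := by
    intro a
    obtain ⟨y, hy⟩ := QuotientGroup.mk_surjective (Additive.toMul a)
    exact ⟨y, congrArg Additive.ofMul hy⟩
  let ρ' : Γ →* Module.End ℤ A :=
    { toFun := fun γ => (MonoidHom.toAdditive (Abelianization.map (ρ γ).toMonoidHom)).toIntLinearMap
      map_one' := by
        apply LinearMap.ext
        intro a
        obtain ⟨y, rfl⟩ := hsur a
        change Additive.ofMul (Abelianization.of (ρ 1 y)) = Additive.ofMul (Abelianization.of y)
        rw [map_one]; rfl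
      map_mul' := fun a b => by
        apply LinearMap.ext
        intro c
        obtain ⟨y, rfl⟩ := hsur c
        change Additive.ofMul (Abelianization.of (ρ (a * b) y)) =
          Additive.ofMul (Abelianization.of (ρ a (ρ b y)))
        rw [map_mul]; rfl }
  have hspan : Submodule.span ℤ (Set.range fun i => (Additive.ofMul (Abelianization.of (s i)) : A)) =
      ⊤ := by
    rw [eq_top_iff]
    intro a _
    obtain ⟨y, rfl⟩ := hsur a
    have key : ∀ y : N, (Additive.ofMul (Abelianization.of y) : A) ∈
        Submodule.span ℤ (Set.range fun i => (Additive.ofMul (Abelianization.of (s i)) : A)) := by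
      intro y
      have hy : y ∈ Subgroup.closure (Set.range s) ⊔ commutator N := by rw [hs]; trivial
      let H : Subgroup N :=
        { carrier := {y | (Additive.ofMul (Abelianization.of y) : A) ∈
            Submodule.span ℤ (Set.range fun i => (Additive.ofMul (Abelianization.of (s i)) : A))}
          one_mem' := by
            simp only [Set.mem_ofPred_eq, map_one, ofMul_one]
            exact zero_mem _
          mul_mem' := fun {a b} ha hb => by
            simp only [Set.mem_ofPred_eq, map_mul, ofMul_mul] at ha hb ⊢
            exact add_mem ha hb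
          inv_mem' := fun {a} ha => by
            simp only [Set.mem_ofPred_eq, map_inv, ofMul_inv] at ha ⊢
            exact neg_mem ha }
      have hle : Subgroup.closure (Set.range s) ⊔ commutator N ≤ H := by
        refine sup_le ?_ ?_
        · rw [Subgroup.closure_le]
          rintro y ⟨i, rfl⟩
          exact Submodule.subset_span ⟨i, rfl⟩
        · intro y hy
          have h1 : Abelianization.of y = 1 := (QuotientGroup.eq_one_iff y).2 hy
          have h2 : (Additive.ofMul (Abelianization.of y) : A) ∈
              Submodule.span ℤ (Set.range fun i =>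
                (Additive.ofMul (Abelianization.of (s i)) : A)) := by
            rw [h1]
            exact zero_mem _
          exact h2
      exact hle hy
    exact key y
  have h1 := act_ring hn hfg hΓ hm _ hspan ρ'
  have h2 : Additive.ofMul (Abelianization.of (ρ γ x)) = Additive.ofMul (Abelianization.of x) :=
    LinearMap.congr_fun (DFunLike.congr_fun h1 γ) (Additive.ofMul (Abelianization.of x))
  have h3 : Abelianization.of (ρ γ x) = Abelianization.of x := Additive.ofMul.injective h2
  have h4 : Abelianization.of (ρ γ x * x⁻¹) = 1 := by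
    rw [map_mul, map_inv, h3, mul_inv_cancel]
  exact (QuotientGroup.eq_one_iff _).1 h4

/-- **Actions on residually nilpotent groups.** -/
theorem act_nilp {n : ℕ} (hn : 3 ≤ n) {Γ : Type} [Group Γ] (hfg : Group.FG Γ)
    (hΓ : QuotientsOfSL n Γ) {N : Type*} [Group N] {m : ℕ} (hm : m < n) (s : Fin m → N)
    (hs : Subgroup.closure (Set.range s) ⊔ commutator N = ⊤)
    (hN : ∀ x : N, (∀ k, x ∈ (⊤ : Subgroup N).lowerCentralSeries k) → x = 1)
    (ρ : Γ →* MulAut N) : ρ = 1 := by
  classical
  have key : ∀ k : ℕ, ∀ (γ : Γ) (x : N), ρ γ x * x⁻¹ ∈ (⊤ : Subgroup N).lowerCentralSeries (k + 1) := by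
    intro k
    induction k with
    | zero =>
      intro γ x
      have h1 := act_abelianization hn hfg hΓ hm s hs ρ γ x
      have h2 : (⊤ : Subgroup N).lowerCentralSeries (0 + 1) = commutator N := by
        rw [zero_add, Subgroup.top_lowerCentralSeries_one]
      rw [h2]
      exact h1
    | succ k ih =>
      let L := (⊤ : Subgroup N).lowerCentralSeries (k + 2)
      let P := N ⧸ L
      let π : N →* P := QuotientGroup.mk' L
      have hcen : ∀ z ∈ (⊤ : Subgroup N).lowerCentralSeries (k + 1), ∀ p : P, π z * p = p * π z := by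
        intro z hz p
        obtain ⟨y, rfl⟩ := QuotientGroup.mk'_surjective L p
        rw [← map_mul, ← map_mul]
        apply QuotientGroup.eq.2
        have h1 : ⁅y⁻¹, z⁻¹⁆ ∈ L := by
          have h2 : ⁅z⁻¹, y⁻¹⁆ ∈ L :=
            Subgroup.commutator_mem_commutator (inv_mem hz) (Subgroup.mem_top _)
          rw [← commutatorElement_inv]
          exact inv_mem h2
        have h3 : (z * y)⁻¹ * (y * z) = ⁅y⁻¹, z⁻¹⁆ := by
          rw [commutatorElement_def]; group
        rw [h3]
        exact h1
      have hγ : ∀ (γ : Γ) (x : N), π (ρ γ x) = π (ρ γ x * x⁻¹) * π x := by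
        intro γ x
        rw [← map_mul]; congr 1; group
      have hcomm : ∀ (γ : Γ) (z : N), z ∈ (⊤ : Subgroup N).lowerCentralSeries (k + 1) →
          π (ρ γ z) = π z := by
        intro γ z hz
        have hle : commutator N ≤ MonoidHom.eqLocus (π.comp (ρ γ).toMonoidHom) π := by
          rw [commutator_eq_closure, Subgroup.closure_le]
          rintro c ⟨u, v, rfl⟩
          change π (ρ γ ⁅u, v⁆) = π ⁅u, v⁆
          rw [map_commutatorElement, map_commutatorElement, map_commutatorElement, hγ γ u, hγ γ v]
          set c := π (ρ γ u * u⁻¹)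
          set d := π (ρ γ v * v⁻¹)
          have hc : ∀ p, c * p = p * c := hcen _ (ih γ u)
          have hd : ∀ p, d * p = p * d := hcen _ (ih γ v)
          rw [commutatorElement_def, commutatorElement_def]
          rw [_root_.mul_inv_rev, _root_.mul_inv_rev]
          have hc' : ∀ p, c⁻¹ * p = p * c⁻¹ := fun p => by
            rw [inv_mul_eq_iff_eq_mul, ← mul_assoc, hc, mul_assoc, mul_inv_cancel, mul_one]
          have hd' : ∀ p, d⁻¹ * p = p * d⁻¹ := fun p => by
            rw [inv_mul_eq_iff_eq_mul, ← mul_assoc, hd, mul_assoc, mul_inv_cancel, mul_one]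
          calc c * π u * (d * π v) * ((π u)⁻¹ * c⁻¹) * ((π v)⁻¹ * d⁻¹)
              = c * (π u * (d * (π v * ((π u)⁻¹ * (c⁻¹ * ((π v)⁻¹ * d⁻¹)))))) := by group
            _ = c * (π u * (d * (π v * ((π u)⁻¹ * (((π v)⁻¹ * d⁻¹) * c⁻¹))))) := by rw [hc']
            _ = (c * (π u * (d * (π v * ((π u)⁻¹ * ((π v)⁻¹ * d⁻¹)))))) * c⁻¹ := by group
            _ = ((π u * (d * (π v * ((π u)⁻¹ * ((π v)⁻¹ * d⁻¹))))) * c) * c⁻¹ := by rw [hc]
            _ = π u * (d * (π v * ((π u)⁻¹ * ((π v)⁻¹ * d⁻¹)))) := by group
            _ = π u * ((π v * ((π u)⁻¹ * ((π v)⁻¹ * d⁻¹))) * d) := by rw [hd]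
            _ = π u * π v * (π u)⁻¹ * (π v)⁻¹ := by group
        have hz' : z ∈ commutator N := by
          have h1 : (⊤ : Subgroup N).lowerCentralSeries (k + 1) ≤ (⊤ : Subgroup N).lowerCentralSeries 1 :=
            Subgroup.lowerCentralSeries_antitone _ (by omega)
          rw [Subgroup.top_lowerCentralSeries_one] at h1
          exact h1 hz
        exact hle hz'
      let _ : CommGroup (Subgroup.center P) :=
        { (inferInstance : Group (Subgroup.center P)) with
          mul_comm := fun a b => Subtype.ext ((Subgroup.mem_center_iff.1 b.2 a)) }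
      let f : Γ →* (N →* Subgroup.center P) :=
        { toFun := fun γ =>
            { toFun := fun x => ⟨π (ρ γ x * x⁻¹), by
                rw [Subgroup.mem_center_iff]
                exact fun p => (hcen _ (ih γ x) p).symm⟩
              map_one' := by
                apply Subtype.ext
                simp
              map_mul' := fun x y => by
                apply Subtype.ext
                change π (ρ γ (x * y) * (x * y)⁻¹) = π (ρ γ x * x⁻¹) * π (ρ γ y * y⁻¹)
                have h1 : π (ρ γ (x * y) * (x * y)⁻¹) =
                    π (ρ γ x) * (π (ρ γ y * y⁻¹) * π x⁻¹) := by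
                  rw [← map_mul π, ← map_mul π, map_mul (ρ γ) x y]; congr 1; group
                rw [h1, hcen _ (ih γ y), ← mul_assoc, ← map_mul] }
          map_one' := by
            ext x
            change π (ρ 1 x * x⁻¹) = 1
            rw [map_one, MulAut.one_apply, mul_inv_cancel, map_one]
          map_mul' := fun a b => by
            ext x
            change π (ρ (a * b) x * x⁻¹) = π (ρ a x * x⁻¹) * π (ρ b x * x⁻¹)
            have h1 : ρ (a * b) x * x⁻¹ = ρ a (ρ b x * x⁻¹) * (ρ a x * x⁻¹) := by
              rw [map_mul, MulAut.mul_apply, map_mul, map_inv]; group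
            rw [h1, map_mul, hcomm a _ (ih b x), hcen _ (ih b x)] }
      have hf : f = 1 := ab_trivial hn hfg hΓ f
      intro γ x
      have h1 := congrArg Subtype.val (DFunLike.congr_fun (DFunLike.congr_fun hf γ) x)
      have h2 : π (ρ γ x * x⁻¹) = 1 := h1
      exact (QuotientGroup.eq_one_iff _).1 h2
  ext1 γ
  ext1 x
  have h1 : ρ γ x * x⁻¹ = 1 := by
    apply hN
    intro k
    cases k with
    | zero => rw [Subgroup.lowerCentralSeries_zero]; trivial
    | succ k => exact key k γ x
  exact mul_inv_eq_one.1 h1

end Pool.Agent.Q24.SLN
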