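import Pool.Agent.Q24.SLN.Stein
import Pool.Agent.Q24.SLN.Gen

/-! # Representations of small degree -/

namespace Pool.Agent.Q24.SLN

open Matrix

/-- the finite quotients of `Γ` are quotients of `SL(n, ℤ)` -/
def QuotientsOfSL (n : ℕ) (Γ : Type) [Group Γ] : Prop :=
  ∀ (Q : Type) [Group Q] [Finite Q], (∃ f : Γ →* Q, Function.Surjective f) →
    ∃ f : SpecialLinearGroup (Fin n) ℤ →* Q, Function.Surjective f

theorem tr_comm {n : ℕ} {i j k l : Fin n} (hij : i ≠ j) (hkl : k ≠ l) (hjk : j ≠ k) (hil : i ≠ l) :
    (SpecialLinearGroup.transvection hij 1 * SpecialLinearGroup.transvection hkl 1 :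
      SpecialLinearGroup (Fin n) ℤ) =
    SpecialLinearGroup.transvection hkl 1 * SpecialLinearGroup.transvection hij 1 := by
  apply Subtype.ext
  change (1 + single i j (1 : ℤ)) * (1 + single k l 1) =
    (1 + single k l 1) * (1 + single i j (1 : ℤ))
  simp only [mul_add, add_mul, mul_one, one_mul, single_mul_single_of_ne _ _ _ _ hjk,
    single_mul_single_of_ne _ _ _ _ (Ne.symm hil)]
  abel

theorem tr_mul {n : ℕ} {i j k : Fin n} (hij : i ≠ j) (hjk : j ≠ k) (hik : i ≠ k) :
    (SpecialLinearGroup.transvection hij 1 * SpecialLinearGroup.transvection hjk 1 :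
      SpecialLinearGroup (Fin n) ℤ) =
    SpecialLinearGroup.transvection hik 1 * SpecialLinearGroup.transvection hjk 1 *
      SpecialLinearGroup.transvection hij 1 := by
  apply Subtype.ext
  change (1 + single i j (1 : ℤ)) * (1 + single j k 1) =
    (1 + single i k 1) * (1 + single j k 1) * (1 + single i j (1 : ℤ))
  simp only [mul_add, add_mul, mul_one, one_mul, single_mul_single_same,
    single_mul_single_of_ne _ _ _ _ (Ne.symm hik), single_mul_single_of_ne _ _ _ _ (Ne.symm hij),
    single_mul_single_of_ne _ _ _ _ (Ne.symm hjk), zero_mul]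
  abel

/-- representations of `SL(n, ℤ)` over algebraically closed fields -/
theorem rep_closed {n : ℕ} (hn : 3 ≤ n) {K : Type*} [Field K] [IsAlgClosed K] {m : ℕ} (hm : m < n)
    (ρ : SpecialLinearGroup (Fin n) ℤ →* GL (Fin m) K) : ρ = 1 := by
  classical
  let L : GL (Fin m) K →* Module.End K (Fin m → K) :=
    (Matrix.toLinAlgEquiv' (R := K) (n := Fin m)).toAlgHom.toRingHom.toMonoidHom.comp
      (Units.coeHom _)
  have hL : Function.Injective L := fun a b h => Units.ext
    ((Matrix.toLinAlgEquiv' (R := K) (n := Fin m)).injective h)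
  have hLi : ∀ g, Function.Injective (L g) := by
    intro g v w h
    have h1 : L g⁻¹ * L g = 1 := by rw [← map_mul, inv_mul_cancel, map_one]
    have h2 : ∀ v, L g⁻¹ (L g v) = v := fun v => LinearMap.congr_fun h1 v
    rw [← h2 v, h, h2]
  let x : Fin n → Fin n → Module.End K (Fin m → K) := fun i j =>
    if h : i ≠ j then L (ρ (SpecialLinearGroup.transvection h 1)) else 1
  have hx : ∀ i j (h : i ≠ j), x i j = L (ρ (SpecialLinearGroup.transvection h 1)) :=
    fun i j h => dif_pos h
  have hs : IsStein x := by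
    constructor
    · intro i j h
      rw [hx i j h]
      exact hLi _
    · intro i j k l hij hkl hjk hil
      rw [hx i j hij, hx k l hkl, ← map_mul, ← map_mul, ← map_mul, ← map_mul,
        tr_comm hij hkl hjk hil]
    · intro i j k hij hjk hik
      rw [hx i j hij, hx j k hjk, hx i k hik, ← map_mul, ← map_mul, ← map_mul, ← map_mul,
        ← map_mul, ← map_mul, tr_mul hij hjk hik]
  have h1 := stein_trivial (K := K) n hn (Fin n) (by simp) (Fin m → K) (by simpa using hm) x hs
  have h2 : ∀ (i j : Fin n) (h : i ≠ j), ρ (SpecialLinearGroup.transvection h 1) = 1 := by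
    intro i j h
    apply hL
    rw [map_one, ← hx i j h]
    exact h1 i j h
  have h3 : ∀ (i j : Fin n) (h : i ≠ j) (c : ℤ), ρ (SpecialLinearGroup.transvection h c) = 1 := by
    intro i j h c
    let f : Multiplicative ℤ →* GL (Fin m) K :=
      { toFun := fun c => ρ (SpecialLinearGroup.transvection h (Multiplicative.toAdd c))
        map_one' := by
          rw [toAdd_one, SpecialLinearGroup.transvection_coeff_zero, map_one]
        map_mul' := fun a b => by
          rw [toAdd_mul, SpecialLinearGroup.transvection_add, map_mul] }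
    have h4 : f = 1 := by
      apply MonoidHom.ext_mint
      exact h2 i j h
    exact DFunLike.congr_fun h4 (Multiplicative.ofAdd c)
  ext1 g
  have hg : g ∈ EE n 0 := by rw [gen_top]; trivial
  unfold EE at hg
  induction hg using Subgroup.closure_induction with
  | mem g hg =>
    obtain ⟨i, j, h, c, -, -, rfl⟩ := hg
    exact h3 i j h c
  | one => simp
  | mul a b _ _ ha hb =>
    rw [map_mul, ha, hb]; simp
  | inv a _ ha => rw [map_inv, ha]; simp

/-- representations of `Γ` over finite fields -/
theorem rep_finite {n : ℕ} (hn : 3 ≤ n) {Γ : Type} [Group Γ] (hΓ : QuotientsOfSL n Γ)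
    {F : Type*} [Field F] [Finite F] {m : ℕ} (hm : m < n) (ρ : Γ →* GL (Fin m) F) : ρ = 1 := by
  classical
  let Q := ρ.range
  have hfin : Finite Q := inferInstance
  -- a copy of `Q` in `Type`
  have hsm : Small.{0} Q := Countable.toSmall Q
  let e' : Shrink.{0} Q ≃* Q := Shrink.mulEquiv
  have hfin' : Finite (Shrink.{0} Q) := Finite.of_equiv Q e'.symm.toEquiv
  obtain ⟨φ, hφ⟩ := hΓ (Shrink.{0} Q) ⟨(e'.symm.toMonoidHom).comp ρ.rangeRestrict,
    e'.symm.surjective.comp ρ.rangeRestrict_surjective⟩
  let K := AlgebraicClosure F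
  let ψ : SpecialLinearGroup (Fin n) ℤ →* GL (Fin m) K :=
    (Matrix.GeneralLinearGroup.map (algebraMap F K)).comp
      ((Subgroup.subtype Q).comp (e'.toMonoidHom.comp φ))
  have hψ : ψ = 1 := rep_closed hn hm ψ
  ext1 g
  obtain ⟨s, hs⟩ := hφ (e'.symm (ρ.rangeRestrict g))
  have h1 : ψ s = 1 := by rw [hψ]; rfl
  have h2 : Matrix.GeneralLinearGroup.map (algebraMap F K) (ρ g) = 1 := by
    rw [← h1]
    change _ = Matrix.GeneralLinearGroup.map (algebraMap F K) ((e' (φ s) : Q) : GL (Fin m) F)
    rw [hs, MulEquiv.apply_symm_apply]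
    rfl
  have hinj : Function.Injective (Matrix.GeneralLinearGroup.map (n := Fin m) (algebraMap F K)) := by
    intro a b hab
    apply Units.ext
    ext i j
    have h3 := congrArg (fun u : GL (Fin m) K => (u : Matrix (Fin m) (Fin m) K) i j) hab
    exact (algebraMap F K).injective h3
  apply hinj
  rw [h2]
  simp

end Pool.Agent.Q24.SLN
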