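import Pool.Agent.Q24.SLN.Rep

/-! # Representations over commutative rings -/

namespace Pool.Agent.Q24.SLN

open Matrix

/-- homomorphisms from `SL(n, ℤ)` to commutative groups -/
theorem sl_ab {n : ℕ} (hn : 3 ≤ n) {A : Type*} [CommGroup A]
    (f : SpecialLinearGroup (Fin n) ℤ →* A) : f = 1 := by
  classical
  have h2 : ∀ (i k : Fin n) (h : i ≠ k), f (SpecialLinearGroup.transvection h 1) = 1 := by
    intro i k h
    obtain ⟨j, hj⟩ : ∃ t : Fin n, t ∉ ({i, k} : Finset (Fin n)) := by
      by_contra hcon
      push Not at hcon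
      have h1 : Fintype.card (Fin n) ≤ ({i, k} : Finset (Fin n)).card :=
        Finset.card_le_card (fun t _ => hcon t)
      have h2 : ({i, k} : Finset (Fin n)).card ≤ 2 := Finset.card_le_two
      rw [Fintype.card_fin] at h1
      omega
    simp only [Finset.mem_insert, Finset.mem_singleton, not_or] at hj
    have h3 := congrArg f (tr_mul (Ne.symm hj.1) hj.2 h)
    rw [map_mul, map_mul, map_mul] at h3
    have h4 : f (SpecialLinearGroup.transvection h 1) *
        (f (SpecialLinearGroup.transvection hj.2 1) *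
          f (SpecialLinearGroup.transvection (Ne.symm hj.1) 1)) =
        1 * (f (SpecialLinearGroup.transvection hj.2 1) *
          f (SpecialLinearGroup.transvection (Ne.symm hj.1) 1)) := by
      rw [← mul_assoc, ← h3, one_mul, mul_comm]
    exact mul_right_cancel h4
  have h3 : ∀ (i j : Fin n) (h : i ≠ j) (c : ℤ), f (SpecialLinearGroup.transvection h c) = 1 := by
    intro i j h c
    let φ : Multiplicative ℤ →* A :=
      { toFun := fun c => f (SpecialLinearGroup.transvection h (Multiplicative.toAdd c))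
        map_one' := by
          rw [toAdd_one, SpecialLinearGroup.transvection_coeff_zero, map_one]
        map_mul' := fun a b => by
          rw [toAdd_mul, SpecialLinearGroup.transvection_add, map_mul] }
    have h4 : φ = 1 := by
      apply MonoidHom.ext_mint
      exact h2 i j h
    exact DFunLike.congr_fun h4 (Multiplicative.ofAdd c)
  ext1 g
  have hg : g ∈ EE n 0 := by rw [gen_top]; trivial
  unfold EE at hg
  induction hg using Subgroup.closure_induction with
  | mem g hg =>
    obtain ⟨i, j, h, c, -, -, rfl⟩ := hg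
    exact h3 i j h c
  | one => simp
  | mul a b _ _ ha hb =>
    rw [map_mul, ha, hb]; simp
  | inv a _ ha => rw [map_inv, ha]; simp

/-- a nontrivial finitely generated abelian group has a nontrivial finite quotient -/
theorem exists_finite_quotient (B : Type*) [AddCommGroup B] [Module.Finite ℤ B] [Nontrivial B] :
    ∃ S : Submodule ℤ B, S ≠ ⊤ ∧ Finite (B ⧸ S) := by
  obtain ⟨S, hS⟩ := IsCoatomic.exists_coatom (α := Submodule ℤ B)
  refine ⟨S, hS.1, ?_⟩
  have hsimple : IsSimpleModule ℤ (B ⧸ S) := isSimpleModule_iff_isCoatom.2 hS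
  obtain ⟨I, hI, ⟨e⟩⟩ := isSimpleModule_iff_quot_maximal.1 hsimple
  have hne : I ≠ ⊥ := by
    intro h
    rw [h] at hI
    exact Int.not_isField (Ring.isField_iff_maximal_bot.2 hI)
  have : Finite (ℤ ⧸ I) := by
    obtain ⟨m, rfl⟩ := (IsPrincipalIdealRing.principal I).principal
    have hm : m ≠ 0 := by
      rintro rfl
      exact hne (by simp)
    have h2 : Finite (ℤ ⧸ Ideal.span {m}) := by
      have : NeZero m.natAbs := ⟨Int.natAbs_ne_zero.2 hm⟩
      exact Finite.of_equiv _ (Int.quotientSpanEquivZMod m).symm.toEquiv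
    exact h2
  exact Finite.of_equiv _ e.symm.toEquiv

/-- homomorphisms from `Γ` to commutative groups -/
theorem ab_trivial {n : ℕ} (hn : 3 ≤ n) {Γ : Type} [Group Γ] (hfg : Group.FG Γ)
    (hΓ : QuotientsOfSL n Γ) {A : Type*} [CommGroup A] (f : Γ →* A) : f = 1 := by
  classical
  by_contra hf
  have hnt : Nontrivial f.range := by
    rw [Subgroup.nontrivial_iff_ne_bot]
    intro h
    apply hf
    ext g
    have : f g ∈ f.range := ⟨g, rfl⟩
    rw [h, Subgroup.mem_bot] at this
    exact this
  have hfgr : Group.FG f.range := Group.fg_of_surjective f.rangeRestrict_surjective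
  have hmf : Module.Finite ℤ (Additive f.range) := by
    rw [Module.Finite.iff_addGroup_fg]
    exact GroupFG.iff_add_fg.1 hfgr
  obtain ⟨S, hS, hfin⟩ := exists_finite_quotient (Additive f.range)
  let Q := Multiplicative (Additive f.range ⧸ S)
  have hfinQ : Finite Q := hfin
  have hsm : Small.{0} Q := Countable.toSmall Q
  let e' : Shrink.{0} Q ≃* Q := Shrink.mulEquiv
  have hfin' : Finite (Shrink.{0} Q) := Finite.of_equiv Q e'.symm.toEquiv
  let π : f.range →* Q :=
    { toFun := fun x => Multiplicative.ofAdd (S.mkQ (Additive.ofMul x))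
      map_one' := by rw [ofMul_one, map_zero]; rfl
      map_mul' := fun a b => by rw [ofMul_mul, map_add]; rfl }
  have hπ : Function.Surjective π := fun q => by
    obtain ⟨b, hb⟩ := S.mkQ_surjective (Multiplicative.toAdd q)
    exact ⟨Additive.toMul b, by
      change Multiplicative.ofAdd (S.mkQ b) = q
      rw [hb]; rfl⟩
  obtain ⟨φ, hφ⟩ := hΓ (Shrink.{0} Q) ⟨(e'.symm.toMonoidHom).comp (π.comp f.rangeRestrict),
    e'.symm.surjective.comp (hπ.comp f.rangeRestrict_surjective)⟩
  have h1 := sl_ab hn φ
  apply hS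
  rw [eq_top_iff]
  intro b _
  obtain ⟨s, hs⟩ := hφ (e'.symm (Multiplicative.ofAdd (S.mkQ b)))
  rw [h1] at hs
  have h2 : Multiplicative.ofAdd (S.mkQ b) = 1 := by
    have := congrArg e' hs
    rw [MulEquiv.apply_symm_apply] at this
    rw [← this]
    simp
  have h3 : S.mkQ b = 0 := h2
  rwa [Submodule.mkQ_apply, Submodule.Quotient.mk_eq_zero] at h3

theorem jac_int : IsJacobsonRing ℤ := by
  rw [isJacobsonRing_iff_prime_eq]
  intro P hP
  by_cases h : P = ⊥
  · subst h
    rw [eq_bot_iff]
    intro x hx
    rw [Ideal.mem_jacobson_bot] at hx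
    have h1 := hx x
    rw [Int.isUnit_iff] at h1
    rw [Ideal.mem_bot]
    rcases h1 with h1 | h1
    · have : x * x = 0 := by linarith
      exact mul_self_eq_zero.1 this
    · exfalso
      nlinarith [mul_self_nonneg x]
  · have : P.IsMaximal := IsPrime.to_maximal_ideal h
    exact Ideal.jacobson_eq_self_of_isMaximal

/-- residue fields of finitely generated commutative rings are finite -/
theorem residue_finite (S : Type*) [CommRing S] [Algebra.FiniteType ℤ S]
    (m : Ideal S) [hm : m.IsMaximal] : Finite (S ⧸ m) := by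
  let F : Field (S ⧸ m) := Ideal.Quotient.field m
  have h0 : Algebra.FiniteType ℤ (S ⧸ m) :=
    Algebra.FiniteType.of_surjective ((Ideal.Quotient.mkₐ S m).restrictScalars ℤ)
      Ideal.Quotient.mk_surjective
  have hJ : IsJacobsonRing ℤ := jac_int
  have h1 : Module.Finite ℤ (S ⧸ m) := finite_of_finite_type_of_isJacobsonRing ℤ (S ⧸ m)
  obtain ⟨p, hp⟩ := CharP.exists (S ⧸ m)
  rcases Nat.eq_zero_or_pos p with h2 | h2
  · exfalso
    subst h2
    have hc : CharZero (S ⧸ m) := CharP.charP_to_charZero (S ⧸ m)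
    have h3 : Function.Injective (algebraMap ℤ (S ⧸ m)) := by
      have : (algebraMap ℤ (S ⧸ m)) = Int.castRingHom (S ⧸ m) := RingHom.ext_int _ _
      rw [this]
      exact RingHom.injective_int _
    have hi : Algebra.IsIntegral ℤ (S ⧸ m) := Algebra.IsIntegral.of_finite ℤ (S ⧸ m)
    have h4 : IsField ℤ := isField_of_isIntegral_of_isField h3 (Field.toIsField _)
    exact Int.not_isField h4
  · apply Module.finite_of_fg_torsion (S ⧸ m)
    intro x
    refine ⟨⟨(p : ℤ), ?_⟩, ?_⟩
    · rw [mem_nonZeroDivisors_iff_ne_zero]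
      exact_mod_cast h2.ne'
    · change (p : ℤ) • x = 0
      rw [zsmul_eq_mul]
      simp

/-- a finitely generated ring is residually nilpotent at its maximal ideals -/
theorem eq_zero_of_forall {S : Type*} [CommRing S] [IsNoetherianRing S] {x : S}
    (h : ∀ (M : Ideal S), M.IsMaximal → ∀ k : ℕ, x ∈ M ^ k) : x = 0 := by
  by_contra hx
  have hne : Ideal.span {x} ≠ ⊥ := by simpa using hx
  have hann : Submodule.annihilator (Ideal.span {x}) ≠ ⊤ := by
    intro h1
    have h2 : (1 : S) ∈ Submodule.annihilator (Ideal.span {x}) := by rw [h1]; trivial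
    rw [Submodule.mem_annihilator] at h2
    have := h2 x (Ideal.mem_span_singleton_self x)
    simp at this
    exact hx this
  obtain ⟨M, hM, hle⟩ := Ideal.exists_le_maximal _ hann
  have h1 : x ∈ (⨅ i : ℕ, M ^ i • ⊤ : Submodule S S) := by
    rw [Submodule.mem_iInf]
    intro i
    have := h M hM i
    simpa using this
  obtain ⟨r, hr⟩ := (M.mem_iInf_smul_pow_eq_bot_iff x).1 h1
  have h2 : (1 - (r : S)) ∈ Submodule.annihilator (Ideal.span {x}) := by
    rw [Submodule.mem_annihilator_span_singleton]
    rw [smul_eq_mul] at hr ⊢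
    rw [sub_mul, one_mul, hr, sub_self]
  have h3 : (1 : S) ∈ M := by
    have := M.add_mem (hle h2) r.2
    simpa using this
  exact hM.ne_top ((Ideal.eq_top_iff_one M).2 h3)

/-- finitely generated rings -/
theorem rep_ft {n : ℕ} (hn : 3 ≤ n) {Γ : Type} [Group Γ] (hfg : Group.FG Γ)
    (hΓ : QuotientsOfSL n Γ) {S : Type*} [CommRing S] [Algebra.FiniteType ℤ S] {m : ℕ}
    (hm : m < n) (ρ : Γ →* GL (Fin m) S) : ρ = 1 := by
  classical
  have hnoe : IsNoetherianRing S := Algebra.FiniteType.isNoetherianRing ℤ S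
  have key : ∀ (M : Ideal S), M.IsMaximal → ∀ k : ℕ, ∀ (γ : Γ) (i j : Fin m),
      (ρ γ : Matrix (Fin m) (Fin m) S) i j - (1 : Matrix (Fin m) (Fin m) S) i j ∈ M ^ (k + 1) := by
    intro M hM k
    induction k with
    | zero =>
      intro γ i j
      let F : Field (S ⧸ M) := Ideal.Quotient.field M
      have hfin : Finite (S ⧸ M) := residue_finite S M
      have h1 := rep_finite hn hΓ hm ((Matrix.GeneralLinearGroup.map (Ideal.Quotient.mk M)).comp ρ)
      have h2 := congrArg (fun u : GL (Fin m) (S ⧸ M) => (u : Matrix (Fin m) (Fin m) (S ⧸ M)) i j)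
        (DFunLike.congr_fun h1 γ)
      have h3 : Ideal.Quotient.mk M ((ρ γ : Matrix (Fin m) (Fin m) S) i j) =
          Ideal.Quotient.mk M ((1 : Matrix (Fin m) (Fin m) S) i j) := by
        refine h2.trans ?_
        change (1 : Matrix (Fin m) (Fin m) (S ⧸ M)) i j = _
        rw [Matrix.one_apply, Matrix.one_apply]
        split_ifs <;> simp
      rw [zero_add, pow_one, ← Ideal.Quotient.eq_zero_iff_mem, map_sub, h3, sub_self]
    | succ k ih =>
      -- an additive homomorphism
      let f : Γ →* Multiplicative (Matrix (Fin m) (Fin m) (S ⧸ M ^ (k + 2))) :=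
        { toFun := fun γ => Multiplicative.ofAdd
            (Matrix.of fun i j => Ideal.Quotient.mk (M ^ (k + 2))
              ((ρ γ : Matrix (Fin m) (Fin m) S) i j - (1 : Matrix (Fin m) (Fin m) S) i j))
          map_one' := by
            apply Multiplicative.toAdd.injective
            ext i j
            simp
          map_mul' := fun a b => by
            apply Multiplicative.toAdd.injective
            ext i j
            change Ideal.Quotient.mk (M ^ (k + 2))
              ((ρ (a * b) : Matrix (Fin m) (Fin m) S) i j - (1 : Matrix (Fin m) (Fin m) S) i j) =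
              Ideal.Quotient.mk (M ^ (k + 2))
              ((ρ a : Matrix (Fin m) (Fin m) S) i j - (1 : Matrix (Fin m) (Fin m) S) i j) +
              Ideal.Quotient.mk (M ^ (k + 2))
              ((ρ b : Matrix (Fin m) (Fin m) S) i j - (1 : Matrix (Fin m) (Fin m) S) i j)
            rw [← map_add, Ideal.Quotient.eq, map_mul, Units.val_mul]
            set X := (ρ a : Matrix (Fin m) (Fin m) S) with hX
            set Y := (ρ b : Matrix (Fin m) (Fin m) S) with hY
            have e : (X * Y) i j - (1 : Matrix (Fin m) (Fin m) S) i j -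
                (X i j - (1 : Matrix (Fin m) (Fin m) S) i j +
                  (Y i j - (1 : Matrix (Fin m) (Fin m) S) i j)) = ((X - 1) * (Y - 1)) i j := by
              simp only [sub_mul, mul_sub, Matrix.sub_apply, mul_one, one_mul]
              ring
            rw [e, Matrix.mul_apply]
            refine Ideal.sum_mem _ fun l _ => ?_
            have h1 : (X - 1) i l * (Y - 1) l j ∈ M ^ (k + 1) * M ^ (k + 1) :=
              Ideal.mul_mem_mul (ih a i l) (ih b l j)
            rw [← pow_add] at h1
            exact Ideal.pow_le_pow_right (by omega) h1 }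
      have hf : f = 1 := ab_trivial hn hfg hΓ f
      intro γ i j
      have h1 := congrArg (fun u => (Multiplicative.toAdd u) i j) (DFunLike.congr_fun hf γ)
      exact Ideal.Quotient.eq_zero_iff_mem.1 h1
  ext1 γ
  apply Units.ext
  ext i j
  rw [← sub_eq_zero]
  refine eq_zero_of_forall fun M hM k => ?_
  cases k with
  | zero => simp
  | succ k => exact key M hM k γ i j

/-- **Small representations.** -/
theorem rep_ring {n : ℕ} (hn : 3 ≤ n) {Γ : Type} [Group Γ] (hfg : Group.FG Γ)
    (hΓ : QuotientsOfSL n Γ) {R : Type*} [CommRing R] {m : ℕ} (hm : m < n)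
    (ρ : Γ →* GL (Fin m) R) : ρ = 1 := by
  classical
  obtain ⟨T, hT⟩ := hfg.out
  let G : Set R := ⋃ t ∈ T, ((Set.range fun p : Fin m × Fin m =>
      (ρ t : Matrix (Fin m) (Fin m) R) p.1 p.2) ∪
    (Set.range fun p : Fin m × Fin m => (ρ t⁻¹ : Matrix (Fin m) (Fin m) R) p.1 p.2))
  have hG : G.Finite := Set.Finite.biUnion T.finite_toSet fun t _ =>
    (Set.finite_range _).union (Set.finite_range _)
  let S : Subalgebra ℤ R := Algebra.adjoin ℤ G
  have hft : Algebra.FiniteType ℤ S := by
    rw [← Subalgebra.fg_iff_finiteType]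
    exact Subalgebra.fg_def.2 ⟨G, hG, rfl⟩
  have hmem : ∀ γ : Γ, ∀ i j, (ρ γ : Matrix (Fin m) (Fin m) R) i j ∈ S := by
    have hone : ∀ i j, ((1 : GL (Fin m) R) : Matrix (Fin m) (Fin m) R) i j ∈ S := by
      intro i j
      rw [Units.val_one, Matrix.one_apply]
      split_ifs
      · exact S.one_mem
      · exact S.zero_mem
    have hmul : ∀ a b : GL (Fin m) R, (∀ i j, (a : Matrix (Fin m) (Fin m) R) i j ∈ S) →
        (∀ i j, (b : Matrix (Fin m) (Fin m) R) i j ∈ S) →
        ∀ i j, ((a * b : GL (Fin m) R) : Matrix (Fin m) (Fin m) R) i j ∈ S := by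
      intro a b ha hb i j
      rw [Units.val_mul, Matrix.mul_apply]
      exact S.sum_mem fun l _ => S.mul_mem (ha i l) (hb l j)
    have key : ∀ γ : Γ, (∀ i j, (ρ γ : Matrix (Fin m) (Fin m) R) i j ∈ S) ∧
        (∀ i j, (ρ γ⁻¹ : Matrix (Fin m) (Fin m) R) i j ∈ S) := by
      intro γ
      have hγ : γ ∈ Subgroup.closure (T : Set Γ) := by rw [hT]; trivial
      induction hγ using Subgroup.closure_induction with
      | mem t ht =>
        constructor
        · intro i j
          exact Algebra.subset_adjoin (Set.mem_biUnion ht (Or.inl ⟨(i, j), rfl⟩))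
        · intro i j
          exact Algebra.subset_adjoin (Set.mem_biUnion ht (Or.inr ⟨(i, j), rfl⟩))
      | one => rw [inv_one, map_one]; exact ⟨hone, hone⟩
      | mul a b _ _ ha hb =>
        rw [_root_.mul_inv_rev, map_mul, map_mul]
        exact ⟨hmul _ _ ha.1 hb.1, hmul _ _ hb.2 ha.2⟩
      | inv a _ ha => rw [inv_inv]; exact ⟨ha.2, ha.1⟩
    exact fun γ => (key γ).1
  let ρ₁ : Γ →* Matrix (Fin m) (Fin m) S :=
    { toFun := fun γ => Matrix.of fun i j => ⟨(ρ γ : Matrix (Fin m) (Fin m) R) i j, hmem γ i j⟩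
      map_one' := by
        ext i j
        change (ρ 1 : Matrix (Fin m) (Fin m) R) i j = (((1 : Matrix (Fin m) (Fin m) S) i j : S) : R)
        rw [map_one, Units.val_one, Matrix.one_apply, Matrix.one_apply]
        split_ifs <;> rfl
      map_mul' := fun a b => by
        ext i j
        rw [Matrix.mul_apply]
        change (ρ (a * b) : Matrix (Fin m) (Fin m) R) i j = _
        rw [map_mul, Units.val_mul, Matrix.mul_apply, AddSubmonoidClass.coe_finsetSum]
        rfl }
  have h1 := rep_ft hn hfg hΓ hm ρ₁.toHomUnits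
  ext1 γ
  apply Units.ext
  ext i j
  have h2 := congrArg (fun u : GL (Fin m) S => (((u : Matrix (Fin m) (Fin m) S) i j : S) : R))
    (DFunLike.congr_fun h1 γ)
  refine h2.trans ?_
  change (((1 : Matrix (Fin m) (Fin m) S) i j : S) : R) = (1 : Matrix (Fin m) (Fin m) R) i j
  rw [Matrix.one_apply, Matrix.one_apply]
  split_ifs <;> rfl

end Pool.Agent.Q24.SLN
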