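import Mathlib

/-! # Thurston's stability theorem for germs -/

namespace Pool.Agent.Q24.SLN

open Filter Topology Asymptotics

/-- **Thurston stability**, for germs with identity derivative. -/
theorem thurston {E : Type*} [NormedAddCommGroup E] [NormedSpace ℝ E] [FiniteDimensional ℝ E]
    {Γ : Type*} [Group Γ] (hfg : Group.FG Γ) (hab : ∀ f : Γ →* Multiplicative ℝ, f = 1)
    (q : E) (a : Γ → E → E) (hq : ∀ g, a g q = q)
    (hone : ∀ᶠ x in 𝓝 q, a 1 x = x)
    (hmul : ∀ g h, ∀ᶠ x in 𝓝 q, a (g * h) x = a g (a h x))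
    (hd : ∀ g, HasStrictFDerivAt (a g) (ContinuousLinearMap.id ℝ E) q) :
    ∀ g, ∀ᶠ x in 𝓝 q, a g x = x := by
  classical
  obtain ⟨T, hT⟩ := hfg.out
  let u : Γ → E → E := fun g x => a g x - x
  have hcont : ∀ g, Tendsto (a g) (𝓝 q) (𝓝 q) := by
    intro g
    have := (hd g).continuousAt
    rw [ContinuousAt, hq g] at this
    exact this
  -- the cocycle relation
  have hcoc : ∀ g h, (fun x => u (g * h) x - u g x - u h x) =o[𝓝 q] fun x => u h x := by
    intro g h
    have h1 := (hd g).isLittleO
    have h2 : Tendsto (fun x => (a h x, x)) (𝓝 q) (𝓝 (q, q)) := by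
      rw [nhds_prod_eq]
      exact (hcont h).prodMk tendsto_id
    have h3 := h1.comp_tendsto h2
    have h4 : (fun x => a g (a h x) - a g x - (a h x - x)) =o[𝓝 q] fun x => a h x - x := h3
    refine h4.congr' ?_ (Eventually.of_forall fun x => rfl)
    filter_upwards [hmul g h] with x hx
    simp only [u, hx]
    abel
  by_contra hcon
  push Not at hcon
  obtain ⟨g₀, hg₀⟩ := hcon
  -- the size of the generators
  let m : E → ℝ := fun x => ∑ t ∈ T, ‖u t x‖
  have hm0 : ∀ x, 0 ≤ m x := fun x => Finset.sum_nonneg fun t _ => norm_nonneg _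
  have hle : ∀ t ∈ T, ∀ x, ‖u t x‖ ≤ m x := fun t ht x =>
    Finset.single_le_sum (f := fun t => ‖u t x‖) (fun t _ => norm_nonneg _) ht
  have hO : ∀ g, (u g) =O[𝓝 q] m := by
    intro g
    have hg : g ∈ Subgroup.closure (T : Set Γ) := by rw [hT]; trivial
    induction hg using Subgroup.closure_induction with
    | mem t ht =>
      refine IsBigO.of_bound 1 (Eventually.of_forall fun x => ?_)
      rw [one_mul, Real.norm_of_nonneg (hm0 x)]
      exact hle t ht x
    | one =>
      refine (isBigO_zero (E' := E) m (𝓝 q)).congr' ?_ (Eventually.of_forall fun _ => rfl)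
      filter_upwards [hone] with x hx
      simp [u, hx]
    | mul g h _ _ hg hh =>
      have h1 := (hcoc g h).isBigO.trans hh
      have h2 := (h1.add hg).add hh
      refine h2.congr' (Eventually.of_forall fun x => ?_) (Eventually.of_forall fun _ => rfl)
      simp only
      abel
    | inv g _ hg =>
      -- `u 1 = u g + u g⁻¹ + o(u g⁻¹)`
      have h1 := hcoc g g⁻¹
      have h2 := h1.right_isBigO_add
      have h3 : (u g⁻¹) =O[𝓝 q] fun x => - u g x := by
        refine h2.congr' (Eventually.of_forall fun _ => rfl) ?_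
        filter_upwards [hone] with x hx
        have : u (g * g⁻¹) x = 0 := by rw [mul_inv_cancel]; simp [u, hx]
        rw [this]
        abel
      exact h3.trans hg.neg_left
  -- points moved by the generators
  have hfreq : ∃ᶠ x in 𝓝 q, m x ≠ 0 := by
    intro hev
    apply hg₀
    have h1 : (u g₀) =O[𝓝 q] fun _ : E => (0 : ℝ) := by
      refine (hO g₀).congr' (Eventually.of_forall fun _ => rfl) ?_
      filter_upwards [hev] with x hx
      exact not_not.1 hx
    have h2 := isBigO_zero_right_iff.1 h1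
    filter_upwards [h2] with x hx
    exact not_not.2 (sub_eq_zero.1 hx)
  have hne : NeBot (𝓝 q ⊓ 𝓟 {x | m x ≠ 0}) := frequently_mem_iff_neBot.1 hfreq
  let U : Ultrafilter E := Ultrafilter.of (𝓝 q ⊓ 𝓟 {x | m x ≠ 0})
  have hU : (U : Filter E) ≤ 𝓝 q ⊓ 𝓟 {x | m x ≠ 0} := Ultrafilter.of_le _
  have hUq : (U : Filter E) ≤ 𝓝 q := hU.trans inf_le_left
  have hUm : ∀ᶠ x in (U : Filter E), m x ≠ 0 := by
    have : {x | m x ≠ 0} ∈ (U : Filter E) := hU (mem_inf_of_right (mem_principal_self _))
    exact this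
  -- the limits
  have hlim : ∀ g, ∃ c : E, Tendsto (fun x => (m x)⁻¹ • u g x) (U : Filter E) (𝓝 c) := by
    intro g
    obtain ⟨C, hC⟩ := (hO g).bound
    have h1 : ∀ᶠ x in (U : Filter E), (m x)⁻¹ • u g x ∈ Metric.closedBall (0 : E) (max C 0) := by
      filter_upwards [hUq hC, hUm] with x hx hmx
      rw [mem_closedBall_zero_iff, norm_smul, norm_inv, Real.norm_of_nonneg (hm0 x)]
      have hpos : 0 < m x := lt_of_le_of_ne (hm0 x) (Ne.symm hmx)
      rw [inv_mul_le_iff₀ hpos]
      rw [Real.norm_of_nonneg (hm0 x)] at hx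
      calc ‖u g x‖ ≤ C * m x := hx
        _ ≤ max C 0 * m x := by gcongr; exact le_max_left _ _
        _ = m x * max C 0 := mul_comm _ _
    have h2 : IsCompact (Metric.closedBall (0 : E) (max C 0)) := isCompact_closedBall _ _
    obtain ⟨c, -, hc⟩ := h2.ultrafilter_le_nhds (U.map fun x => (m x)⁻¹ • u g x)
      (le_principal_iff.2 h1)
    exact ⟨c, hc⟩
  choose c hc using hlim
  have hadd : ∀ g h, c (g * h) = c g + c h := by
    intro g h
    have h1 : (fun x => u (g * h) x - u g x - u h x) =o[(U : Filter E)] m :=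
      ((hcoc g h).trans_isBigO (hO h)).mono hUq
    have h2 : Tendsto (fun x => (m x)⁻¹ • (u (g * h) x - u g x - u h x)) (U : Filter E) (𝓝 0) :=
      h1.tendsto_inv_smul_nhds_zero
    have h3 := ((hc (g * h)).sub (hc g)).sub (hc h)
    have h4 : c (g * h) - c g - c h = 0 := by
      refine tendsto_nhds_unique (h3.congr fun x => ?_) h2
      simp only [smul_sub]
    rw [sub_sub, sub_eq_zero] at h4
    exact h4
  have hc0 : ∀ g, c g = 0 := by
    intro g
    have key : ∀ L : E →ₗ[ℝ] ℝ, L (c g) = 0 := by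
      intro L
      have hone' : c 1 = 0 := by
        have := hadd 1 1
        rw [mul_one] at this
        simpa using this
      let f : Γ →* Multiplicative ℝ :=
        { toFun := fun g => Multiplicative.ofAdd (L (c g))
          map_one' := by rw [hone', map_zero]; rfl
          map_mul' := fun a b => by rw [hadd, map_add]; rfl }
      exact congrArg Multiplicative.toAdd (DFunLike.congr_fun (hab f) g)
    exact (Module.forall_dual_apply_eq_zero_iff ℝ (c g)).1 key
  -- contradiction
  have hsum : Tendsto (fun x => ∑ t ∈ T, ‖(m x)⁻¹ • u t x‖) (U : Filter E) (𝓝 0) := by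
    have h1 : Tendsto (fun x => ∑ t ∈ T, ‖(m x)⁻¹ • u t x‖) (U : Filter E)
        (𝓝 (∑ t ∈ T, ‖c t‖)) := tendsto_finsetSum _ fun t _ => (hc t).norm
    simpa [hc0] using h1
  have hone2 : Tendsto (fun x => ∑ t ∈ T, ‖(m x)⁻¹ • u t x‖) (U : Filter E) (𝓝 1) := by
    refine (tendsto_const_nhds (x := (1 : ℝ))).congr' ?_
    filter_upwards [hUm] with x hx
    simp only [norm_smul, norm_inv, Real.norm_of_nonneg (hm0 x)]
    rw [← Finset.mul_sum]
    exact (inv_mul_cancel₀ hx).symm
  exact zero_ne_one (tendsto_nhds_unique hsum hone2)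

end Pool.Agent.Q24.SLN
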