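import Pool.Agent.Q24.SLN.Mod
import Pool.Agent.Q24.SLN.Thur

/-! # Smooth actions with small orbits -/

namespace Pool.Agent.Q24.SLN

open Filter Topology
open scoped Manifold ContDiff

/-- actions on sets with at most `n` elements -/
theorem act_small {n : ℕ} (hn : 3 ≤ n) {Γ : Type} [Group Γ] (hfg : Group.FG Γ)
    (hΓ : QuotientsOfSL n Γ) {X : Type*} [Fintype X] [MulAction Γ X] (hX : Fintype.card X ≤ n)
    (γ : Γ) (x : X) : γ • x = x := by
  classical
  let N : Submodule ℤ (X → ℤ) := Submodule.span ℤ {fun _ => 1}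
  let s : {y : X // y ≠ x} → (X → ℤ) ⧸ N := fun y => N.mkQ (Pi.single y.1 1)
  have hcard : Fintype.card {y : X // y ≠ x} < n := by
    have h1 : Fintype.card {y : X // y ≠ x} < Fintype.card X :=
      Fintype.card_subtype_lt (x := x) (by simp)
    omega
  let e := Fintype.equivFin {y : X // y ≠ x}
  have hs : Submodule.span ℤ (Set.range (s ∘ e.symm)) = ⊤ := by
    rw [e.symm.surjective.range_comp, eq_top_iff]
    intro w _
    obtain ⟨f, rfl⟩ := N.mkQ_surjective w
    have hf : f = ∑ y : X, f y • (Pi.single y 1 : X → ℤ) := by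
      ext z
      simp [Finset.sum_apply, Pi.single_apply]
    have hall : ∀ y : X, N.mkQ (Pi.single y 1) ∈ Submodule.span ℤ (Set.range s) := by
      intro y
      by_cases hy : y = x
      · have h1 : (fun _ => 1 : X → ℤ) = ∑ z : X, (Pi.single z 1 : X → ℤ) := by
          ext z
          simp [Finset.sum_apply, Pi.single_apply]
        have h2 : N.mkQ (fun _ => 1 : X → ℤ) = 0 :=
          (Submodule.Quotient.mk_eq_zero N).2 (Submodule.mem_span_singleton_self _)
        rw [h1, map_sum, ← Finset.add_sum_erase _ _ (Finset.mem_univ x)] at h2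
        have h3 : N.mkQ (Pi.single x 1) = - ∑ z ∈ Finset.univ.erase x, N.mkQ (Pi.single z 1) :=
          eq_neg_of_add_eq_zero_left h2
        rw [hy, h3]
        refine Submodule.neg_mem _ (Submodule.sum_mem _ fun z hz => ?_)
        exact Submodule.subset_span ⟨⟨z, (Finset.mem_erase.1 hz).1⟩, rfl⟩
      · exact Submodule.subset_span ⟨⟨y, hy⟩, rfl⟩
    rw [hf, map_sum]
    refine Submodule.sum_mem _ fun y _ => ?_
    rw [map_smul]
    exact Submodule.smul_mem _ _ (hall y)
  let τ : Γ → (X → ℤ) →ₗ[ℤ] (X → ℤ) := fun g => LinearMap.funLeft ℤ ℤ (fun y => g⁻¹ • y)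
  have hτ : ∀ g f y, τ g f y = f (g⁻¹ • y) := fun g f y => rfl
  have hst : ∀ g, N ≤ N.comap (τ g) := by
    intro g
    rw [Submodule.span_le]
    rintro f (rfl : f = fun _ => 1)
    exact Submodule.mem_span_singleton_self _
  let ρ : Γ →* Module.End ℤ ((X → ℤ) ⧸ N) :=
    { toFun := fun g => N.mapQ N (τ g) (hst g)
      map_one' := by
        apply LinearMap.ext
        intro w
        obtain ⟨f, rfl⟩ := N.mkQ_surjective w
        change N.mkQ (τ 1 f) = N.mkQ f
        congr 1
        ext y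
        rw [hτ, inv_one, one_smul]
      map_mul' := fun a b => by
        apply LinearMap.ext
        intro w
        obtain ⟨f, rfl⟩ := N.mkQ_surjective w
        change N.mkQ (τ (a * b) f) = N.mkQ (τ a (τ b f))
        congr 1
        ext y
        rw [hτ, hτ, hτ, _root_.mul_inv_rev, mul_smul] }
  have h1 := act_ring hn hfg hΓ hcard _ hs ρ
  have h2 : N.mkQ (τ γ (Pi.single x 1)) = N.mkQ (Pi.single x 1) :=
    LinearMap.congr_fun (DFunLike.congr_fun h1 γ) (N.mkQ (Pi.single x 1))
  rw [← sub_eq_zero, ← map_sub, Submodule.mkQ_apply, Submodule.Quotient.mk_eq_zero,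
    Submodule.mem_span_singleton] at h2
  obtain ⟨c, hc⟩ := h2
  have hval : ∀ y, c = (if γ⁻¹ • y = x then 1 else 0) - (if y = x then 1 else 0) := by
    intro y
    have := congrFun hc y
    rw [Pi.smul_apply, Pi.sub_apply, hτ, Pi.single_apply, Pi.single_apply] at this
    simpa using this
  have hc0 : c = 0 := by
    have h3 : ∑ y : X, c = ∑ y : X, ((if γ⁻¹ • y = x then 1 else 0) -
        (if y = x then (1 : ℤ) else 0)) := Finset.sum_congr rfl fun y _ => hval y
    rw [Finset.sum_sub_distrib, Finset.sum_const, Finset.card_univ] at h3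
    have h4 : ∑ y : X, (if γ⁻¹ • y = x then (1 : ℤ) else 0) = 1 := by
      have : ∀ y : X, (γ⁻¹ • y = x) ↔ (y = γ • x) := fun y => inv_smul_eq_iff
      simp [this]
    rw [h4] at h3
    simp only [Finset.sum_ite_eq', Finset.mem_univ, if_true, sub_self, nsmul_eq_mul,
      mul_eq_zero, Nat.cast_eq_zero, Fintype.card_eq_zero_iff] at h3
    rcases h3 with h3 | h3
    · exact absurd h3 (not_isEmpty_iff.2 ⟨x⟩)
    · exact h3
  have h5 := hval (γ • x)
  rw [hc0, inv_smul_smul, if_pos rfl] at h5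
  by_contra hne
  rw [if_neg hne] at h5
  norm_num at h5

section
variable {E : Type*} [NormedAddCommGroup E] [NormedSpace ℝ E] [FiniteDimensional ℝ E]
  {M : Type*} [TopologicalSpace M] [ChartedSpace E M] [IsManifold 𝓘(ℝ, E) 1 M]

omit [IsManifold 𝓘(ℝ, E) 1 M] in
/-- stability at a fixed point -/
theorem local_fix {n : ℕ} (hn : 3 ≤ n) {Γ : Type} [Group Γ] (hfg : Group.FG Γ)
    (hΓ : QuotientsOfSL n Γ) (hE : Module.finrank ℝ E < n) [MulAction Γ M]
    (hsm : ∀ g : Γ, ContMDiff 𝓘(ℝ, E) 𝓘(ℝ, E) 1 (fun x : M => g • x)) (p : M)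
    (hp : ∀ g : Γ, g • p = p) (g : Γ) : ∀ᶠ x in 𝓝 p, g • x = x := by
  classical
  let φ := extChartAt 𝓘(ℝ, E) p
  set q := φ p with hqdef
  let a : Γ → E → E := fun g y => φ (g • φ.symm y)
  have hcont : ∀ g : Γ, Continuous fun x : M => g • x := fun g => (hsm g).continuous
  have hsymm : φ.symm q = p := extChartAt_to_inv (I := 𝓘(ℝ, E)) p
  have hcs : ContinuousAt φ.symm q := continuousAt_extChartAt_symm (I := 𝓘(ℝ, E)) p
  have hc : ContinuousAt φ p := continuousAt_extChartAt (I := 𝓘(ℝ, E)) p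
  have htgt : φ.target ∈ 𝓝 q := extChartAt_target_mem_nhds (I := 𝓘(ℝ, E)) p
  have hsrc : φ.source ∈ 𝓝 p := extChartAt_source_mem_nhds (I := 𝓘(ℝ, E)) p
  have hq : ∀ g, a g q = q := by
    intro g
    simp only [a, hsymm, hp]
    rfl
  have hone : ∀ᶠ x in 𝓝 q, a 1 x = x := by
    filter_upwards [htgt] with x hx
    simp only [a, one_smul]
    exact φ.right_inv hx
  have hin : ∀ h : Γ, ∀ᶠ y in 𝓝 q, h • φ.symm y ∈ φ.source := by
    intro h
    have h1 : Tendsto (fun y => h • φ.symm y) (𝓝 q) (𝓝 p) := by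
      have h2 : Tendsto (fun y => h • φ.symm y) (𝓝 q) (𝓝 (h • φ.symm q)) :=
        ((hcont h).tendsto _).comp hcs
      rwa [hsymm, hp] at h2
    exact h1 hsrc
  have hmul : ∀ g h, ∀ᶠ x in 𝓝 q, a (g * h) x = a g (a h x) := by
    intro g h
    filter_upwards [hin h] with x hx
    simp only [a]
    rw [φ.left_inv hx, mul_smul]
  have hcd : ∀ g, ContDiffAt ℝ 1 (a g) q := by
    intro g
    have h1 := (contMDiffAt_iff (x := p)).1 ((hsm g).contMDiffAt (x := p))
    have h2 := h1.2
    have h3 : g • p = p := hp g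
    rw [h3] at h2
    simp only [modelWithCornersSelf_coe, Set.range_id] at h2
    rw [contDiffWithinAt_univ] at h2
    exact h2
  have hstr : ∀ g, HasStrictFDerivAt (a g) (fderiv ℝ (a g) q) q := fun g =>
    (hcd g).hasStrictFDerivAt one_ne_zero
  let D : Γ →* Module.End ℝ E :=
    { toFun := fun g => (fderiv ℝ (a g) q : E →ₗ[ℝ] E)
      map_one' := by
        have h1 : fderiv ℝ (a 1) q = ContinuousLinearMap.id ℝ E := by
          have h2 : (a 1) =ᶠ[𝓝 q] id := hone
          rw [h2.fderiv_eq, fderiv_id]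
        rw [h1]; rfl
      map_mul' := fun g h => by
        have h1 : fderiv ℝ (a (g * h)) q = (fderiv ℝ (a g) q).comp (fderiv ℝ (a h) q) := by
          have h2 : (a (g * h)) =ᶠ[𝓝 q] (a g ∘ a h) := hmul g h
          rw [h2.fderiv_eq]
          have h3 : HasFDerivAt (a g) (fderiv ℝ (a g) q) (a h q) := by
            rw [hq h]; exact (hstr g).hasFDerivAt
          exact (h3.comp q (hstr h).hasFDerivAt).fderiv
        rw [h1]; rfl }
  have hD : D = 1 := act_ring hn hfg hΓ hE (Module.finBasis ℝ E) (Module.finBasis ℝ E).span_eq D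
  have hid : ∀ g, HasStrictFDerivAt (a g) (ContinuousLinearMap.id ℝ E) q := by
    intro g
    have h1 : fderiv ℝ (a g) q = ContinuousLinearMap.id ℝ E := by
      ext v
      exact LinearMap.congr_fun (DFunLike.congr_fun hD g) v
    rw [← h1]
    exact hstr g
  have key := thurston hfg (fun f => ab_trivial hn hfg hΓ f) q a hq hone hmul hid g
  have h1 : ∀ᶠ x in 𝓝 p, a g (φ x) = φ x := hc.eventually key
  have h2 : ∀ᶠ x in 𝓝 p, g • x ∈ φ.source := by
    have h3 : Tendsto (fun x : M => g • x) (𝓝 p) (𝓝 p) := by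
      have := (hcont g).tendsto p
      rwa [hp] at this
    exact h3 hsrc
  filter_upwards [h1, h2, hsrc] with x hx1 hx2 hx3
  simp only [a] at hx1
  rw [φ.left_inv hx3] at hx1
  exact φ.injOn hx2 hx3 hx1

omit [IsManifold 𝓘(ℝ, E) 1 M] in
/-- **Smooth actions with a small orbit.** -/
theorem smooth {n : ℕ} (hn : 3 ≤ n) {Γ : Type} [Group Γ] (hfg : Group.FG Γ)
    (hΓ : QuotientsOfSL n Γ) (hE : Module.finrank ℝ E < n) [T2Space M] [ConnectedSpace M]
    [MulAction Γ M] (hsm : ∀ g : Γ, ContMDiff 𝓘(ℝ, E) 𝓘(ℝ, E) 1 (fun x : M => g • x)) (p : M)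
    (hfin : (MulAction.orbit Γ p).Finite) (hp : (MulAction.orbit Γ p).ncard ≤ n) :
    ∀ (g : Γ) (x : M), g • x = x := by
  classical
  have hcont : ∀ g : Γ, Continuous fun x : M => g • x := fun g => (hsm g).continuous
  have hfix : ∀ g : Γ, g • p = p := by
    intro g
    have := hfin.fintype
    have hcard : Fintype.card (MulAction.orbit Γ p) ≤ n := by
      rw [← Nat.card_eq_fintype_card, Nat.card_coe_set_eq]
      exact hp
    have h1 := act_small hn hfg hΓ hcard g (⟨p, MulAction.mem_orbit_self p⟩ : MulAction.orbit Γ p)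
    exact congrArg Subtype.val h1
  obtain ⟨T, hT⟩ := hfg.out
  let Z : Set M := MulAction.fixedPoints Γ M
  have hev : ∀ x ∈ Z, x ∈ interior Z := by
    intro x hx
    rw [mem_interior_iff_mem_nhds]
    have h1 : ∀ᶠ y in 𝓝 x, ∀ t ∈ T, t • y = y :=
      (Filter.eventually_all_finset T).2 fun t _ => local_fix hn hfg hΓ hE hsm x hx t
    filter_upwards [h1] with y hy
    intro g
    have hg : g ∈ Subgroup.closure (T : Set Γ) := by rw [hT]; trivial
    induction hg using Subgroup.closure_induction with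
    | mem t ht => exact hy t ht
    | one => exact one_smul _ _
    | mul a b _ _ ha hb => rw [mul_smul, hb, ha]
    | inv a _ ha => exact inv_smul_eq_iff.2 ha.symm
  have hopen : IsOpen Z := by
    rw [← subset_interior_iff_isOpen]
    exact hev
  have hclosed : IsClosed Z := by
    have : Z = ⋂ g : Γ, {x : M | g • x = x} := by
      ext x
      simp [Z, MulAction.mem_fixedPoints]
    rw [this]
    exact isClosed_iInter fun g => isClosed_eq (hcont g) continuous_id
  have huniv : Z = Set.univ := IsClopen.eq_univ ⟨hclosed, hopen⟩ ⟨p, hfix⟩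
  intro g x
  have hx : x ∈ Z := by rw [huniv]; trivial
  exact hx g

end

end Pool.Agent.Q24.SLN
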