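import Mathlib

/-! # Families of linear maps satisfying the Steinberg relations -/

namespace Pool.Agent.Q24.SLN

universe u v w

/-- The Steinberg relations (with unit coefficients) for a family of injective linear maps. -/
structure IsStein {K : Type u} [Field K] {V : Type v} [AddCommGroup V] [Module K V] {ι : Type w}
    (x : ι → ι → Module.End K V) : Prop where
  inj : ∀ i j, i ≠ j → Function.Injective (x i j)
  comm : ∀ i j k l, i ≠ j → k ≠ l → j ≠ k → i ≠ l → x i j * x k l = x k l * x i j
  mul : ∀ i j k, i ≠ j → j ≠ k → i ≠ k → x i j * x j k = x i k * x j k * x i j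

section
variable {K : Type u} [Field K] {V : Type v} [AddCommGroup V] [Module K V]
  [FiniteDimensional K V] {ι : Type w}

theorem right_cancel {a b c : Module.End K V} (hc : Function.Injective c)
    (h : a * c = b * c) : a = b := by
  have hs : Function.Surjective c := LinearMap.injective_iff_surjective.1 hc
  ext v
  obtain ⟨w, rfl⟩ := hs v
  exact LinearMap.congr_fun h w

theorem IsStein.right {x : ι → ι → Module.End K V} (hx : IsStein x) {i j k : ι} (hij : i ≠ j)
    (hjk : j ≠ k) (hik : i ≠ k) (h : x i j = 1) : x i k = 1 := by
  have h1 := hx.mul i j k hij hjk hik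
  rw [h, one_mul, mul_one] at h1
  exact (right_cancel (hx.inj j k hjk) (by rw [one_mul]; exact h1.symm))

theorem IsStein.left {x : ι → ι → Module.End K V} (hx : IsStein x) {i j k : ι} (hij : i ≠ j)
    (hki : k ≠ i) (hkj : k ≠ j) (h : x i j = 1) : x k j = 1 := by
  have h1 := hx.mul k i j hki hij hkj
  rw [h, mul_one, mul_one] at h1
  exact (right_cancel (hx.inj k i hki) (by rw [one_mul]; exact h1.symm))

theorem IsStein.all {x : ι → ι → Module.End K V} (hx : IsStein x) [Fintype ι]
    (hc : 3 ≤ Fintype.card ι) {i j : ι} (hij : i ≠ j) (h : x i j = 1) :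
    ∀ k l, k ≠ l → x k l = 1 := by
  classical
  intro k l hkl
  by_cases hki : k = i
  · subst hki
    by_cases hlj : l = j
    · rw [hlj]; exact h
    · exact hx.right hij (Ne.symm hlj) hkl h
  by_cases hlj : l = j
  · subst hlj
    exact hx.left hij hki hkl h
  by_cases hkj : k = j
  · subst hkj
    by_cases hli : l = i
    · subst hli
      obtain ⟨t, ht⟩ : ∃ t : ι, t ∉ ({l, k} : Finset ι) := by
        by_contra hcon
        push Not at hcon
        have h1 : Fintype.card ι ≤ ({l, k} : Finset ι).card :=
          Finset.card_le_card (fun t _ => hcon t)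
        have h2 : ({l, k} : Finset ι).card ≤ 2 := Finset.card_le_two
        omega
      simp only [Finset.mem_insert, Finset.mem_singleton, not_or] at ht
      have h1 : x l t = 1 := hx.right hij (Ne.symm ht.2) (Ne.symm ht.1) h
      have h2 : x k t = 1 := hx.left (Ne.symm ht.1) hkl (Ne.symm ht.2) h1
      exact hx.right (Ne.symm ht.2) ht.1 hkl h2
    · have h1 : x i l = 1 := hx.right hij (Ne.symm hlj) (Ne.symm hli) h
      exact hx.left (Ne.symm hli) hki hkl h1
  · have h1 : x k j = 1 := hx.left hij hki hkj h
    exact hx.right hkj (Ne.symm hlj) hkl h1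

omit [FiniteDimensional K V] in
/-- eigenvectors with pairwise different systems of eigenvalues are linearly independent -/
theorem indep_of_weights {S I : Type*} [Fintype S] (A : I → Module.End K V) (u' : S → V)
    (c : I → S → K) (hu : ∀ s, u' s ≠ 0) (hA : ∀ i s, A i (u' s) = c i s • u' s)
    (hc : ∀ s t, s ≠ t → ∃ i, c i s ≠ c i t) : LinearIndependent K u' := by
  classical
  have key : ∀ (s : S) (T : Finset S), s ∉ T → ∃ (P : Module.End K V) (p : S → K),
      (∀ t, P (u' t) = p t • u' t) ∧ p s ≠ 0 ∧ ∀ t ∈ T, p t = 0 := by
    intro s T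
    induction T using Finset.induction_on with
    | empty => exact fun _ => ⟨1, fun _ => 1, fun t => by simp, one_ne_zero, by simp⟩
    | insert t T _ ih =>
      intro hs
      rw [Finset.mem_insert, not_or] at hs
      obtain ⟨P, p, h1, h2, h3⟩ := ih hs.2
      obtain ⟨i, hi⟩ := hc s t hs.1
      refine ⟨(A i - c i t • 1) * P, fun r => (c i r - c i t) * p r, ?_, ?_, ?_⟩
      · intro r
        rw [Module.End.mul_apply, h1, map_smul, LinearMap.sub_apply, hA, LinearMap.smul_apply,
          Module.End.one_apply, ← sub_smul, smul_smul, mul_comm]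
      · exact mul_ne_zero (sub_ne_zero.2 hi) h2
      · intro r hr
        rcases Finset.mem_insert.1 hr with rfl | hr
        · simp
        · simp [h3 r hr]
  rw [Fintype.linearIndependent_iff]
  intro g hg s
  obtain ⟨P, p, h1, h2, h3⟩ := key s (Finset.univ.erase s) (by simp)
  have h4 := congrArg P hg
  rw [map_sum, map_zero, Finset.sum_eq_single s] at h4
  · rw [map_smul, h1, smul_smul] at h4
    rcases smul_eq_zero.1 h4 with h5 | h5
    · rcases mul_eq_zero.1 h5 with h6 | h6
      · exact h6
      · exact absurd h6 h2
    · exact absurd h5 (hu s)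
  · intro t _ hts
    rw [map_smul, h1, h3 t (by simp [hts]), zero_smul, smul_zero]
  · simp

omit [FiniteDimensional K V] in
theorem mem_eig {B : Module.End K V} {α : K} {v : V} :
    v ∈ LinearMap.ker (B - α • 1) ↔ B v = α • v := by
  rw [LinearMap.mem_ker, LinearMap.sub_apply, sub_eq_zero]
  simp

/-- commuting operators have a common eigenvector in every nonzero stable subspace -/
theorem exists_common [IsAlgClosed K] {I : Type*} (A : I → Module.End K V)
    (hA : ∀ i j, A i * A j = A j * A i) (E : Submodule K V) (hE : E ≠ ⊥)
    (hst : ∀ i, ∀ v ∈ E, A i v ∈ E) :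
    ∃ v ∈ E, v ≠ 0 ∧ ∃ α : I → K, ∀ i, A i v = α i • v := by
  classical
  let P : Submodule K V → Prop := fun W => W ≤ E ∧ W ≠ ⊥ ∧ ∀ i, ∀ v ∈ W, A i v ∈ W
  obtain ⟨W, ⟨hWE, hW0, hWs⟩, hmin⟩ : ∃ W, P W ∧ ∀ W', P W' →
      Module.finrank K W ≤ Module.finrank K W' := by
    have hne : ∃ n, ∃ W, P W ∧ Module.finrank K W = n := ⟨_, E, ⟨le_rfl, hE, hst⟩, rfl⟩
    obtain ⟨W, hW, hn⟩ := Nat.find_spec hne
    refine ⟨W, hW, fun W' hW' => ?_⟩
    rw [hn]
    exact Nat.find_min' hne ⟨W', hW', rfl⟩
  have hscal : ∀ i, ∃ α : K, ∀ v ∈ W, A i v = α • v := by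
    intro i
    have : Nontrivial W := Submodule.nontrivial_iff_ne_bot.2 hW0
    let B : Module.End K W := (A i).restrict (hWs i)
    obtain ⟨α, hα⟩ := Module.End.exists_eigenvalue B
    obtain ⟨w, hw⟩ := hα.exists_hasEigenvector
    refine ⟨α, ?_⟩
    let W' : Submodule K V := W ⊓ LinearMap.ker (A i - α • 1)
    have hP : P W' := by
      refine ⟨inf_le_left.trans hWE, ?_, ?_⟩
      · intro h0
        have h1 : (w : V) ∈ W' := by
          refine ⟨w.2, mem_eig.2 ?_⟩
          exact congrArg Subtype.val hw.apply_eq_smul
        rw [h0, Submodule.mem_bot] at h1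
        exact hw.2 (Subtype.ext h1)
      · rintro j v ⟨hv1, hv2⟩
        refine ⟨hWs j v hv1, mem_eig.2 ?_⟩
        have h1 : A i (A j v) = A j (A i v) := LinearMap.congr_fun (hA i j) v
        rw [h1, mem_eig.1 hv2, map_smul]
    have hle : Module.finrank K W ≤ Module.finrank K W' := hmin W' hP
    have heq : W' = W := Submodule.eq_of_le_of_finrank_le inf_le_left hle
    intro v hv
    rw [← heq] at hv
    exact mem_eig.1 hv.2
  choose α hα using hscal
  obtain ⟨v, hv, hv0⟩ := Submodule.exists_mem_ne_zero_of_ne_bot hW0
  exact ⟨v, hWE hv, hv0, α, fun i => hα i v hv⟩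

/-- two linear maps which commute with a linear map of the plane that is not a scalar commute -/
theorem comm_of_two (hV : Module.finrank K V ≤ 2) {T A B : Module.End K V}
    (hT : ∀ c : K, T ≠ c • 1) (hA : A * T = T * A) (hB : B * T = T * B) : A * B = B * A := by
  have hex : ∃ v : V, LinearIndependent K ![v, T v] := by
    by_contra hcon
    push Not at hcon
    obtain ⟨c, hc⟩ := LinearMap.exists_eq_smul_id_of_forall_notLinearIndependent hcon
    exact hT c hc
  obtain ⟨v, hv⟩ := hex
  have hcard : Module.finrank K V = 2 := by
    have := hv.fintype_card_le_finrank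
    simp at this
    omega
  have hspan : Submodule.span K (Set.range ![v, T v]) = ⊤ :=
    hv.span_eq_top_of_card_eq_finrank (by simp [hcard])
  have hmem : ∀ w : V, ∃ a b : K, w = a • v + b • T v := by
    intro w
    have : w ∈ Submodule.span K (Set.range ![v, T v]) := by rw [hspan]; trivial
    simp only [Matrix.range_cons, Matrix.range_empty, Set.union_empty] at this
    rw [Set.singleton_union, Submodule.mem_span_pair] at this
    obtain ⟨a, b, h⟩ := this
    exact ⟨a, b, h.symm⟩
  have hform : ∀ C : Module.End K V, C * T = T * C → ∃ a b : K, C = a • 1 + b • T := by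
    intro C hC
    obtain ⟨a, b, hab⟩ := hmem (C v)
    refine ⟨a, b, ?_⟩
    have h1 : C (T v) = T (C v) := LinearMap.congr_fun hC v
    ext w
    obtain ⟨c, d, rfl⟩ := hmem w
    simp only [map_add, map_smul, h1, hab, LinearMap.add_apply, LinearMap.smul_apply,
      Module.End.one_apply]
  obtain ⟨a, b, rfl⟩ := hform A hA
  obtain ⟨c, d, rfl⟩ := hform B hB
  simp only [add_mul, mul_add, smul_mul_assoc, mul_smul_comm, one_mul, mul_one]
  module

/-- small spaces -/
theorem IsStein.two {x : ι → ι → Module.End K V} (hx : IsStein x) [Fintype ι]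
    (hc : 3 ≤ Fintype.card ι) (hV : Module.finrank K V ≤ 2) :
    ∀ k l, k ≠ l → x k l = 1 := by
  obtain ⟨i, j, k, hij, hik, hjk⟩ := Fintype.two_lt_card_iff.1 (by omega : 2 < Fintype.card ι)
  -- `T = x i k`
  by_cases hT : ∃ c : K, x i k = c • 1
  · obtain ⟨c, hc'⟩ := hT
    have h1 := hx.mul i k j hik (Ne.symm hjk) hij
    have h2 : x i k * x k j = x k j * x i k := by rw [hc']; simp
    rw [h2] at h1
    have h3 : x i j = 1 := by
      have h4 : x k j * x i k = (x i j) * (x k j * x i k) := by
        rw [← mul_assoc]; exact h1
      refine right_cancel (c := x k j * x i k) ?_ (by rw [one_mul]; exact h4.symm)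
      exact (hx.inj k j (Ne.symm hjk)).comp (hx.inj i k hik)
    exact hx.all hc hij h3
  · push Not at hT
    have h1 : x i j * x j k = x j k * x i j := by
      refine comm_of_two hV hT ?_ ?_
      · exact hx.comm i j i k hij hik (Ne.symm hij) hik
      · exact hx.comm j k i k hjk hik (Ne.symm hik) hjk
    have h2 := hx.mul i j k hij hjk hik
    rw [h1] at h2
    have h3 : x i k = 1 := by
      refine right_cancel (c := x j k * x i j) ?_ (by rw [one_mul, ← mul_assoc]; exact h2.symm)
      exact (hx.inj j k hjk).comp (hx.inj i j hij)
    exact hx.all hc hik h3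

/-- all eigenvalues are one -/
theorem IsStein.eig [IsAlgClosed K] {x : ι → ι → Module.End K V} (hx : IsStein x) [Fintype ι]
    [DecidableEq ι] (hc : 4 ≤ Fintype.card ι) (hV : Module.finrank K V < Fintype.card ι) {a z : ι}
    (haz : a ≠ z) {l : K} {v : V} (hv : v ≠ 0) (hl : x a z v = l • v) : l = 1 := by
  by_contra hl1
  let J := {j : ι // j ≠ a ∧ j ≠ z}
  have hcardJ : Fintype.card J + 2 = Fintype.card ι := by
    have h1 : Fintype.card J = (Finset.univ.filter fun j : ι => j ≠ a ∧ j ≠ z).card :=
      Fintype.card_subtype _
    have h2 : (Finset.univ.filter fun j : ι => j ≠ a ∧ j ≠ z) = Finset.univ \ {a, z} := by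
      ext j; simp
    rw [h1, h2, Finset.card_sdiff_of_subset (Finset.subset_univ _), Finset.card_pair haz,
      Finset.card_univ]
    omega
  obtain ⟨j1, j2, hj12⟩ := Fintype.one_lt_card_iff.1 (by omega : 1 < Fintype.card J)
  let A : J → Module.End K V := fun j => x a j
  let B : J → Module.End K V := fun j => x j z
  let X := x a z
  have hAA : ∀ i j, A i * A j = A j * A i := fun i j =>
    hx.comm a i a j (Ne.symm i.2.1) (Ne.symm j.2.1) i.2.1 (Ne.symm j.2.1)
  have hXA : ∀ j, X * A j = A j * X := fun j =>
    hx.comm a z a j haz (Ne.symm j.2.1) (Ne.symm haz) (Ne.symm j.2.1)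
  have hXB : ∀ j, X * B j = B j * X := fun j =>
    hx.comm a z j z haz j.2.2 (Ne.symm j.2.2) haz
  have hAB : ∀ i j, i ≠ j → A i * B j = B j * A i := fun i j hij =>
    hx.comm a i j z (Ne.symm i.2.1) j.2.2 (fun h => hij (Subtype.ext h)) haz
  have hAB' : ∀ j, A j * B j = X * B j * A j := fun j =>
    hx.mul a j z (Ne.symm j.2.1) j.2.2 haz
  obtain ⟨w, hwE, hw0, α, hα⟩ := exists_common A hAA (LinearMap.ker (X - l • 1))
    (by
      intro h0
      have : v ∈ LinearMap.ker (X - l • 1) := mem_eig.2 hl
      rw [h0, Submodule.mem_bot] at this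
      exact hv this)
    (by
      intro i u hu
      rw [mem_eig] at hu ⊢
      have h1 : X (A i u) = A i (X u) := LinearMap.congr_fun (hXA i) u
      rw [h1, hu, map_smul])
  rw [mem_eig] at hwE
  have hα0 : ∀ i, α i ≠ 0 := by
    intro i h0
    have h1 := hα i
    rw [h0, zero_smul] at h1
    exact hw0 (hx.inj a i (Ne.symm i.2.1) (by rw [map_zero]; exact h1))
  -- action on the vectors `B j u`
  have hXu : ∀ u : V, X u = l • u → ∀ j, X (B j u) = l • B j u := by
    intro u hu j
    have h1 : X (B j u) = B j (X u) := LinearMap.congr_fun (hXB j) u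
    rw [h1, hu, map_smul]
  have hstep : ∀ (u : V) (c : J → K), X u = l • u → (∀ i, A i u = c i • u) → ∀ j,
      ∀ i, A i (B j u) = (if i = j then c i * l else c i) • B j u := by
    intro u c hu hcu j i
    by_cases hij : i = j
    · subst hij
      have h1 : A i (B i u) = X (B i (A i u)) := LinearMap.congr_fun (hAB' i) u
      rw [h1, hcu, map_smul, map_smul, hXu u hu, smul_smul, if_pos rfl]
    · have h1 : A i (B j u) = B j (A i u) := LinearMap.congr_fun (hAB i j hij) u
      rw [h1, hcu, map_smul, if_neg hij]
  have hBinj : ∀ (j : J) (u : V), u ≠ 0 → B j u ≠ 0 := by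
    intro j u hu h0
    exact hu (hx.inj j z j.2.2 (by rw [map_zero]; exact h0))
  let u' : Option (Option J) → V := fun s => match s with
    | none => w
    | some none => B j1 (B j2 w)
    | some (some j) => B j w
  let c : J → Option (Option J) → K := fun i s => match s with
    | none => α i
    | some none => if i = j1 then (if i = j2 then α i * l else α i) * l
        else (if i = j2 then α i * l else α i)
    | some (some j) => if i = j then α i * l else α i
  have hli : LinearIndependent K u' := by
    refine indep_of_weights A u' c ?_ ?_ ?_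
    · intro s
      match s with
      | none => exact hw0
      | some none => exact hBinj _ _ (hBinj _ _ hw0)
      | some (some j) => exact hBinj _ _ hw0
    · intro i s
      match s with
      | none => exact hα i
      | some none => exact hstep (B j2 w) _ (hXu w hwE j2) (hstep w α hwE hα j2) j1 i
      | some (some j) => exact hstep w α hwE hα j i
    · have hne : ∀ i, α i ≠ α i * l := by
        intro i h
        apply hl1
        have : α i * 1 = α i * l := by rw [mul_one]; exact h
        exact (mul_left_cancel₀ (hα0 i) this).symm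
      intro s t hst
      match s, t with
      | none, none => exact absurd rfl hst
      | none, some none =>
        refine ⟨j1, ?_⟩
        simp only [c, if_neg hj12, if_true]
        exact hne j1
      | none, some (some j) => exact ⟨j, by simp only [c, if_true]; exact hne j⟩
      | some none, none =>
        refine ⟨j1, ?_⟩
        simp only [c, if_neg hj12, if_true]
        exact (hne j1).symm
      | some (some j), none => exact ⟨j, by simp only [c, if_true]; exact (hne j).symm⟩
      | some none, some none => exact absurd rfl hst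
      | some (some j), some (some k) =>
        have hjk : j ≠ k := fun h => hst (by rw [h])
        exact ⟨j, by simp only [c, if_true, if_neg hjk]; exact (hne j).symm⟩
      | some none, some (some j) =>
        by_cases h1 : j1 = j
        · refine ⟨j2, ?_⟩
          have h2 : j2 ≠ j := fun h => hj12 (h1.trans h.symm)
          simp only [c, if_neg (Ne.symm hj12), if_true, if_neg h2]
          exact (hne j2).symm
        · refine ⟨j1, ?_⟩
          simp only [c, if_neg hj12, if_true, if_neg h1]
          exact (hne j1).symm
      | some (some j), some none =>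
        by_cases h1 : j1 = j
        · refine ⟨j2, ?_⟩
          have h2 : j2 ≠ j := fun h => hj12 (h1.trans h.symm)
          simp only [c, if_neg (Ne.symm hj12), if_true, if_neg h2]
          exact hne j2
        · refine ⟨j1, ?_⟩
          simp only [c, if_neg hj12, if_true, if_neg h1]
          exact hne j1
  have h1 := hli.fintype_card_le_finrank
  simp only [Fintype.card_option] at h1
  omega

end

/-- **Families satisfying the Steinberg relations of rank `N` are trivial in dimension `< N`.** -/
theorem stein_trivial {K : Type u} [Field K] [IsAlgClosed K] (N : ℕ) (hN : 3 ≤ N) :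
    ∀ (ι : Type w) [Fintype ι] [DecidableEq ι], Fintype.card ι = N →
    ∀ (V : Type v) [AddCommGroup V] [Module K V] [FiniteDimensional K V],
      Module.finrank K V < N → ∀ x : ι → ι → Module.End K V, IsStein x →
      ∀ k l, k ≠ l → x k l = 1 := by
  induction N, hN using Nat.le_induction with
  | base =>
    intro ι _ _ hι V _ _ _ hV x hx
    exact hx.two (by omega) (by omega)
  | succ N hN ih =>
    intro ι _ _ hι V _ _ _ hV x hx
    obtain ⟨a, b, -, hab, -, -⟩ := Fintype.two_lt_card_iff.1 (by omega : 2 < Fintype.card ι)
    by_cases hVt : Subsingleton V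
    · intro k l _
      ext v
      exact Subsingleton.elim _ _
    rw [not_subsingleton_iff_nontrivial] at hVt
    let J := {j : ι // j ≠ a}
    have hcardJ : Fintype.card J = N := by
      have h1 : Fintype.card J = Fintype.card ι - 1 := by
        rw [Fintype.card_subtype_compl]
        simp
      omega
    -- the fixed space
    let F : Submodule K V := ⨅ j : J, LinearMap.ker (x a j - (1 : K) • 1)
    have memF : ∀ v, v ∈ F ↔ ∀ j, j ≠ a → x a j v = v := by
      intro v
      rw [Submodule.mem_iInf]
      constructor
      · intro h j hj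
        have := mem_eig.1 (h ⟨j, hj⟩)
        rwa [one_smul] at this
      · intro h j
        exact mem_eig.2 (by rw [one_smul]; exact h j j.2)
    have hF0 : F ≠ ⊥ := by
      obtain ⟨v, -, hv0, α, hα⟩ := exists_common (fun j : J => x a j)
        (fun i j => hx.comm a i a j (Ne.symm i.2) (Ne.symm j.2) i.2 (Ne.symm j.2)) ⊤
        (by exact top_ne_bot) (fun _ _ _ => trivial)
      intro h0
      have hv : v ∈ F := by
        rw [memF]
        intro j hj
        have h1 := hx.eig (by omega) (by omega) (Ne.symm hj) hv0 (hα ⟨j, hj⟩)
        have h2 := hα ⟨j, hj⟩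
        rw [h1, one_smul] at h2
        exact h2
      rw [h0, Submodule.mem_bot] at hv
      exact hv0 hv
    by_cases hF1 : F = ⊤
    · have h1 : x a b = 1 := by
        ext v
        have : v ∈ F := by rw [hF1]; trivial
        exact (memF v).1 this b (Ne.symm hab)
      exact hx.all (by omega) hab h1
    have hst : ∀ k l : J, k ≠ l → ∀ v ∈ F, x k l v ∈ F := by
      intro k l hkl v hv
      have hkl' : (k : ι) ≠ l := fun h => hkl (Subtype.ext h)
      rw [memF] at hv ⊢
      intro j hj
      have hc : ∀ j : ι, j ≠ a → j ≠ k → x a j (x k l v) = x k l v := by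
        intro j hj hjk
        have h1 : x a j (x k l v) = x k l (x a j v) :=
          LinearMap.congr_fun (hx.comm a j k l (Ne.symm hj) hkl' hjk (Ne.symm l.2)) v
        rw [h1, hv j hj]
      by_cases hjk : j = k
      · subst hjk
        have h1 : x a k (x k l v) = x a l (x k l (x a k v)) :=
          LinearMap.congr_fun (hx.mul a k l (Ne.symm k.2) hkl' (Ne.symm l.2)) v
        rw [h1, hv k k.2]
        exact hc l l.2 (Ne.symm hkl')
      · exact hc j hj hjk
    have hlt1 : Module.finrank K F < N := by
      have := Submodule.finrank_lt hF1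
      omega
    have hlt2 : Module.finrank K (V ⧸ F) < N := by
      have h1 := Submodule.finrank_quotient_add_finrank F
      have h2 : 0 < Module.finrank K F := by
        rw [Module.finrank_pos_iff]
        exact Submodule.nontrivial_iff_ne_bot.2 hF0
      omega
    -- the restricted family
    let y : J → J → Module.End K F := fun k l => if h : k ≠ l then (x k l).restrict (hst k l h)
      else 1
    have hy : ∀ (k l : J) (h : k ≠ l) (v : F), ((y k l v : F) : V) = x k l v := by
      intro k l h v
      simp only [y, dif_pos h]
      rfl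
    have hys : IsStein y := by
      constructor
      · intro k l h v w hvw
        apply Subtype.ext
        have h1 := congrArg Subtype.val hvw
        rw [hy k l h, hy k l h] at h1
        exact hx.inj k l (fun h' => h (Subtype.ext h')) h1
      · intro i j k l hij hkl hjk hil
        ext v
        rw [Module.End.mul_apply, Module.End.mul_apply, hy i j hij, hy k l hkl, hy k l hkl,
          hy i j hij]
        exact LinearMap.congr_fun (hx.comm i j k l (fun h' => hij (Subtype.ext h'))
          (fun h' => hkl (Subtype.ext h')) (fun h' => hjk (Subtype.ext h'))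
          (fun h' => hil (Subtype.ext h'))) (v : V)
      · intro i j k hij hjk hik
        ext v
        simp only [Module.End.mul_apply]
        rw [hy i j hij, hy j k hjk, hy i k hik, hy j k hjk, hy i j hij]
        exact LinearMap.congr_fun (hx.mul i j k (fun h' => hij (Subtype.ext h'))
          (fun h' => hjk (Subtype.ext h')) (fun h' => hik (Subtype.ext h'))) (v : V)
    have hy1 := ih J hcardJ F hlt1 y hys
    -- the family on the quotient
    let z : J → J → Module.End K (V ⧸ F) := fun k l =>
      if h : k ≠ l then F.mapQ F (x k l) (hst k l h) else 1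
    have hz : ∀ (k l : J) (h : k ≠ l) (v : V), z k l (F.mkQ v) = F.mkQ (x k l v) := by
      intro k l h v
      simp only [z, dif_pos h]
      rfl
    have hzs : IsStein z := by
      constructor
      · intro k l h
        rw [← LinearMap.ker_eq_bot, LinearMap.ker_eq_bot']
        intro m hm
        obtain ⟨v, rfl⟩ := F.mkQ_surjective m
        rw [hz k l h, Submodule.mkQ_apply, Submodule.Quotient.mk_eq_zero] at hm
        have hsurj : Function.Surjective (y k l) :=
          LinearMap.injective_iff_surjective.1 (hys.inj k l h)
        obtain ⟨w, hw⟩ := hsurj ⟨_, hm⟩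
        have h1 : x k l w = x k l v := by
          rw [← hy k l h, hw]
        have h2 := hx.inj k l (fun h' => h (Subtype.ext h')) h1
        rw [Submodule.mkQ_apply, Submodule.Quotient.mk_eq_zero, ← h2]
        exact w.2
      · intro i j k l hij hkl hjk hil
        apply LinearMap.ext
        intro m
        obtain ⟨v, rfl⟩ := F.mkQ_surjective m
        rw [Module.End.mul_apply, Module.End.mul_apply, hz i j hij, hz k l hkl, hz k l hkl,
          hz i j hij]
        exact congrArg F.mkQ (LinearMap.congr_fun (hx.comm i j k l (fun h' => hij (Subtype.ext h'))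
          (fun h' => hkl (Subtype.ext h')) (fun h' => hjk (Subtype.ext h'))
          (fun h' => hil (Subtype.ext h'))) (v : V))
      · intro i j k hij hjk hik
        apply LinearMap.ext
        intro m
        obtain ⟨v, rfl⟩ := F.mkQ_surjective m
        simp only [Module.End.mul_apply]
        rw [hz j k hjk, hz i j hij, hz i j hij, hz j k hjk, hz i k hik]
        exact congrArg F.mkQ (LinearMap.congr_fun (hx.mul i j k (fun h' => hij (Subtype.ext h'))
          (fun h' => hjk (Subtype.ext h')) (fun h' => hik (Subtype.ext h'))) (v : V))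
    have hz1 := ih J hcardJ (V ⧸ F) hlt2 z hzs
    -- conclusion
    have hfix : ∀ k l : J, k ≠ l → ∀ v ∈ F, x k l v = v := by
      intro k l h v hv
      have h1 := hy k l h ⟨v, hv⟩
      rw [hy1 k l h] at h1
      exact h1.symm
    have hsub : ∀ k l : J, k ≠ l → ∀ v, x k l v - v ∈ F := by
      intro k l h v
      have h1 := hz k l h v
      rw [hz1 k l h] at h1
      rw [← Submodule.Quotient.mk_eq_zero, Submodule.Quotient.mk_sub, sub_eq_zero]
      exact h1.symm
    have hcomm : ∀ i j k l : J, i ≠ j → k ≠ l → x i j * x k l = x k l * x i j := by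
      intro i j k l hij hkl
      ext v
      rw [Module.End.mul_apply, Module.End.mul_apply]
      have h1 := hfix i j hij _ (hsub k l hkl v)
      have h2 := hfix k l hkl _ (hsub i j hij v)
      rw [map_sub] at h1 h2
      have h3 : x i j (x k l v) = x k l v - v + x i j v := by rw [← h1]; abel
      have h4 : x k l (x i j v) = x i j v - v + x k l v := by rw [← h2]; abel
      rw [h3, h4]; abel
    obtain ⟨i, j, k, hij, hik, hjk⟩ := Fintype.two_lt_card_iff.1 (by omega : 2 < Fintype.card J)
    have hij' : (i : ι) ≠ j := fun h => hij (Subtype.ext h)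
    have hik' : (i : ι) ≠ k := fun h => hik (Subtype.ext h)
    have hjk' : (j : ι) ≠ k := fun h => hjk (Subtype.ext h)
    have h2 := hx.mul i j k hij' hjk' hik'
    rw [hcomm i j j k hij hjk] at h2
    have h3 : x i k = 1 := by
      refine right_cancel (c := x j k * x i j) ?_ (by rw [one_mul, ← mul_assoc]; exact h2.symm)
      exact (hx.inj j k hjk').comp (hx.inj i j hij')
    exact hx.all (by omega) hik' h3

end Pool.Agent.Q24.SLN
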